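import Pool.Agent.MP_ee8c61_ag.R3IZ.RKit
import Pool.Agent.MP_ee8c61_ag.R3IZ.RBig
import Pool.Agent.MP_ee8c61_ag.Q3IZ.RDict
import Pool.Agent.MP_ee8c61_ag.N3Z.IZ

/-!
A complete double curve of exponent zero is a curve of the surface datum.
-/

namespace Pool.Agent.MP_ee8c61_ag.N3.Q3IZ

open Pool.Agent.MP_ee8c61_ag.M3 Pool.Agent.MP_ee8c61_ag.Q3IZ

set_option linter.unusedSectionVars false

variable [Base]

open H59 hiding pd fl
open M3 M3E M3RESID M3F Pool.Agent.MP_cce4c9_lc Pool.Agent.MP_cce4c9_lc.H87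
open M3J (ex br)
open M3Z (cmp Fl Lb fl fl_eq un_cmp cmp_le cmp_mono)

noncomputable section

namespace RCuB

variable {L k : Type} [Field L] [Algebra ℂ L] [Field k] [Algebra ℂ k]

/-- A point of a curve has residue field the constants. -/
theorem shift (hk : IsFF ℂ k) {G : Pl L k} {V : ValuationSubring L} (hV : Fg G.o V)
    (hne : V ≠ G.o.O) {g : L} (hg : g ∈ V) : ∃ c : ℂ, Sm V (g - algebraMap ℂ L c) := by
  obtain ⟨W, hW, rfl⟩ := RDict.exists_cmp hV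
  obtain ⟨x, hx⟩ := H7.dvr ℂ k hk W hW fun e => hne (le_antisymm hV.1 fun g hg =>
    ⟨hg, e ▸ ValuationSubring.mem_top _⟩)
  obtain ⟨c, hc⟩ := H51.res hk x _ ((hx _).1 hg.2)
  refine ⟨c, (RDict.sm_cmp (sub_mem hg.1 (cst_F _ c))).2 ?_⟩
  rw [Pl.π_sub hg.1 (cst_F _ c), G.π_cst]
  refine ⟨(hx _).2 hc.le, fun u => ?_⟩
  have h1 := (hx _).1 u.2.2
  rw [map_inv₀, inv_le_one₀ (zero_lt_iff.2 (x.val_ne u.1))] at h1
  exact absurd hc (not_lt.2 h1)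

theorem br_shift (C : Co L 2) (y z : L) (c : ℂ) : br C y (z - algebraMap ℂ L c) = br C y z := by
  simp [br]

variable {f : Po 3} {la : ℚ} {M : Mod 3} {U : Cov M} {P : Pl (KK 3) L} {G : Pl L k} {o j : M.J}

theorem un_c (hU : U.OK la) (h : Fz f la U P G o j) {b : M.ι} (hb : M.In b (cmp P G.o.O)) :
    Un (cmp P G.o.O) (M.mon b U.c) := by
  have := h.fl.un_fl hb U.c
  rwa [fl_eq (RKit.c_top hU h.t1) (RKit.c_top hU h.t2)] at this

theorem T_mem (hU : U.OK la) (h : Fz f la U P G o j) {s : KK 3} (hs : s ∈ U.T) :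
    s ∈ cmp P G.o.O := by
  obtain ⟨b, hb⟩ := h.fl.ok.cov _ h.fl.isc.2.1
  exact (un_c hU h hb).mem_iff.1 (hU.gens.1 s hs _ h.fl.isc.2.1 b hb)

theorem not_F1 {g : KK 3} (h : Un (cmp P G.o.O) g) : P.π g ∉ G.o.F 1 := fun e => by
  obtain ⟨h0, h1⟩ := G.o.un_O.1 (un_cmp.1 h).2
  have := e.resolve_left h0
  omega

theorem nc (hU : U.OK la) (h : Fz f la U P G o j) :
    ∃ s ∈ U.T, ∃ s' ∈ U.T, P.π s ∉ G.o.F 1 ∧ NC G.o (P.π s' / P.π s) := by
  obtain ⟨s, hs, s', hs', h1, h2⟩ := h.nt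
  obtain ⟨b, hb⟩ := h.fl.ok.cov _ h.fl.isc.2.1
  have us : Un (cmp P G.o.O) s := (h1 b hb).cancel (un_c hU h hb)
  have u1 := P.o.un_O.1 (un_cmp.1 us).1
  have m : s' / s ∈ cmp P G.o.O := by simpa using (h2 0).2.1
  refine ⟨s, hs, s', hs', not_F1 us, ?_⟩
  rw [← Pl.π_div (T_mem hU h hs').1 u1.1 u1.2]
  refine ⟨m.2, fun c => ?_⟩
  rw [← P.π_cst, ← Pl.π_sub m.1 (cst_F _ c)]
  exact not_F1 (h2 c)

/-- The shifted third coordinate is divisible by the equation of the third divisor. -/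
theorem div_un {W : Vl 3} {a : M.ι} (ha : M.In a W) (l : Fin 3) {c : ℂ}
    (hc : ¬Un W (M.S.z a l - algebraMap ℂ _ c)) :
    (M.S.z a l - algebraMap ℂ _ c) / M.S.un a l ∈ W := by
  have h0 : ∀ c : ℂ, algebraMap ℂ (KK 3) c ∈ W := fun c => ha _ ((M.S.A a).algebraMap_mem c)
  have h1 : M.S.z a l - algebraMap ℂ _ c ∈ W := sub_mem (ha _ (M.S.z_mem a l)) (h0 c)
  rw [un_eq]
  split_ifs
  · by_cases e : c = 0
    · rw [e, map_zero, sub_zero]
      by_cases z0 : M.S.z a l = 0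
      · rw [z0, zero_div]
        exact zero_mem _
      · rw [div_self z0]
        exact one_mem _
    · have h2 : Un W (algebraMap ℂ (KK 3) c) :=
        ⟨(map_ne_zero _).2 e, h0 c, by rw [← map_inv₀]; exact h0 _⟩
      have h3 := h2.add h1 hc
      rw [add_sub_cancel] at h3
      rw [div_eq_mul_inv]
      exact mul_mem h1 h3.2.2
  · rwa [div_one]

end RCuB

open RCuB in
theorem rowCuB : OfCu := by
  classical
  intro _ hN hA0 f la b β Q M U D L _ _ S o H hS k _ _ G j hF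
  have hU := H.cov
  have hB := hF.fl.bas.toBas1
  obtain ⟨b0, hb0⟩ := H.ok.cov _ hF.fl.isc.2.1
  obtain ⟨m0, m1, m2, hm⟩ := hF.fl.labels hb0
  have hk := hF.fl.isFF hb0 hm
  obtain ⟨s0, hs0, s1, hs1, n0, n1⟩ := nc hU hF
  refine ⟨⟨hF.fl.nrm, _, n1⟩, ?_, ?_, ⟨_, Finset.mem_image_of_mem _ hs0, _,
    Finset.mem_image_of_mem _ hs1, n0, n1⟩, fun V hV hne => ?_,
    hA0 f la b β Q M U D L S o H hS k G j hF⟩
  · obtain ⟨C, -, hA⟩ := hF.fl.exists_co2 hb0 hm 0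
    have h1 := exp_cv hA hS.ψ0 hS.rat
    have h2 := hF.fl.exp_eq (hS.po ▸ exp_v0 H.ok hS.top.1) hS.rd h1
    rw [h2, hF.t2.1, Rat.cast_zero] at h1
    exact h1
  · intro s' hs'
    obtain ⟨s, hs, rfl⟩ := Finset.mem_image.1 hs'
    exact (T_mem hU hF hs).2
  have ov := RBig.ov_fg hF hV
  obtain ⟨a, ha⟩ := H.ok.cov _ ov
  have hb : M.In a (cmp S.P G.o.O) := fun g hg => cmp_mono _ hV.1 (ha g hg)
  obtain ⟨l0, l1, l2, hl⟩ := hF.fl.labels hb
  have hA : ∀ g ∈ M.S.A a, g ∈ S.P.o.F 0 := fun g hg => (ha g hg).1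
  obtain ⟨c, hc⟩ := shift hk hV hne (ha _ (M.S.z_mem a l2)).2
  have uy := hF.fl.un_y hb hl c
  have e1 : S.P.π (M.S.z a l2 - algebraMap ℂ _ c) = S.P.π (M.S.z a l2) - algebraMap ℂ L c := by
    rw [Pl.π_sub (hA _ (M.S.z_mem a l2)) (cst_F _ c), S.P.π_cst]
  have η1 : M.η a j = M.S.z a l1 := M.S.η_some a j l1 hl.h1
  refine ⟨S.P.π (M.S.z a l1), S.P.π (M.S.z a l2) - algebraMap ℂ L c, η1 ▸ hF.fl.v_i hb,
    e1 ▸ not_F1 uy, hc, fun s' hs' => ?_⟩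
  obtain ⟨s, hs, rfl⟩ := Finset.mem_image.1 hs'
  have hio : M.In a S.P.o.O := fun g hg => hA g hg
  obtain ⟨n, x, u, hn, hx, u1, -, -, b0, e2⟩ :=
    hN f la b β Q M U D L S o H hS a l0 l1 l2 hio hl.h0 hl.n01 hl.n02 hl.n12
  have hw := div_un ha l2 (c := c) fun e => hc.2 (e1 ▸ (un_cmp.1 e).2)
  have hxj : ∀ i, (x i : ℚ) = n * S.q * ((M.kk + M.e o) i - la * M.aa i) := fun i => by
    simpa [Mod.q] using congrFun hx i
  have hcj : ∀ i, (U.c i : ℚ) = U.m * (U.P i - la * M.aa i) := fun i => by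
    simpa [Mod.q] using congrFun hU.c i
  have x0 : x o = 0 := by
    have h1 := hxj o
    have h2 := hS.top.1
    simp only [Mod.ex, Pi.add_apply, Mod.kk, Mod.e, Mod.aa, Pi.single_eq_same] at h1 h2
    push_cast at h1
    rw [h2, mul_zero] at h1
    exact_mod_cast h1
  obtain ⟨y, hy⟩ : ∃ y, y = U.m • (x + (n * S.q) • (M.e j + fl o j 1)) - (n * S.q) • U.c :=
    ⟨_, rfl⟩
  have y0 : 0 ≤ y := fun i => by
    have h1 : U.P i ≤ M.k i + 1 := hU.le i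
    have h4 : M.e o i + (M.e j i + fl o j 1 i) = 1 := by
      have := hF.fl.isc.1
      simp only [fl, M.e_apply, Pi.one_apply]
      by_cases h1 : i = o
      · subst h1; simp [this.symm]
      by_cases h2 : i = j
      · subst h2; simp [h1]
      · simp [h1, h2]
    have h5 : y i = U.m * (x i + (n * S.q : ℕ) * (1 - M.e o i)) - (n * S.q : ℕ) * U.c i := by
      rw [← h4]
      simp [hy, mul_add]
    have h2 : (y i : ℚ) = U.m * (n * S.q) * (M.k i + 1 - U.P i) := by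
      rw [h5]
      push_cast
      rw [hxj, hcj]
      simp only [Pi.add_apply, Mod.kk]
      push_cast
      ring
    have h3 : (0 : ℚ) ≤ y i := by
      rw [h2]
      exact mul_nonneg (by positivity) (sub_nonneg.2 h1)
    exact_mod_cast h3
  have g0 : s ∈ S.P.o.F 0 := (T_mem hU hF hs).1
  have g1 : M.S.z a l1 * (M.S.z a l2 - algebraMap ℂ _ c) ∈ S.P.o.F 0 :=
    F_mul0 (hA _ (M.S.z_mem a l1)) uy.2.1.1
  have g2 : u * M.mon a x ∈ S.P.o.F 0 :=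
    F_mul0 (hA _ u1) (hS.po ▸ Or.inr (by rw [hB.v_mon _ _ _ (hS.po ▸ hio), x0]))
  have g3 := F_mul0 g2 (M3Z.pow_F0 g1 (n * S.q))
  have e3 : M.mon a (M.e j + fl o j 1) = M.S.z a l1 * M.S.un a l2 := by
    have := hB.mon_e a j 1
    rw [one_smul, zpow_one] at this
    rw [hB.mon_add, this, η1, hl.un2]
  have e4 : (u * M.mon a x * (M.S.z a l1 * (M.S.z a l2 - algebraMap ℂ _ c)) ^ (n * S.q)) ^ U.m *
      s ^ (n * S.q) = u ^ U.m * M.mon a y *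
        (((M.S.z a l2 - algebraMap ℂ _ c) / M.S.un a l2) ^ (n * S.q)) ^ U.m *
        (s * M.mon a U.c) ^ (n * S.q) := by
    have e5 : M.mon a y * M.mon a U.c ^ (n * S.q) =
        (M.mon a x * (M.S.z a l1 * M.S.un a l2) ^ (n * S.q)) ^ U.m := by
      rw [← hB.mon_nsmul, ← hB.mon_add, hy, sub_add_cancel, hB.mon_nsmul, hB.mon_add,
        hB.mon_nsmul, e3]
    obtain ⟨w, hw'⟩ : ∃ w, w = (M.S.z a l2 - algebraMap ℂ _ c) / M.S.un a l2 := ⟨_, rfl⟩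
    have e6 : M.S.z a l2 - algebraMap ℂ _ c = w * M.S.un a l2 := by
      rw [hw', div_mul_cancel₀ _ (Units.ne_zero _)]
    rw [← hw', e6]
    calc _ = u ^ U.m * (M.mon a x * (M.S.z a l1 * M.S.un a l2) ^ (n * S.q)) ^ U.m *
          (w ^ (n * S.q)) ^ U.m * s ^ (n * S.q) := by ring
      _ = _ := by rw [← e5]; ring
  have hm : (u * M.mon a x * (M.S.z a l1 * (M.S.z a l2 - algebraMap ℂ _ c)) ^ (n * S.q)) ^ U.m *
      s ^ (n * S.q) ∈ cmp S.P V := by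
    rw [e4]
    exact mul_mem (mul_mem (mul_mem (pow_mem (ha _ u1) _) (ha _ (hB.mon_mem _ _ y0)))
      (pow_mem (pow_mem hw _) _)) (pow_mem (hU.gens.1 s hs _ ov a ha) _)
  refine mem_of_pow hn ?_
  have h7 := hm.2
  rw [S.P.mul _ (M3Z.pow_F0 g3 _) _ (M3Z.pow_F0 g0 _), M3Z.pi_pow g3, M3Z.pi_pow g0,
    S.P.mul _ g2 _ (M3Z.pow_F0 g1 _), M3Z.pi_pow g1,
    S.P.mul _ (hA _ (M.S.z_mem a l1)) _ uy.2.1.1, e1, ← e2] at h7
  rw [br_shift]
  have e7 : ∀ ψ y B s : L, ((ψ * (y / B) ^ S.q) ^ U.m * s ^ S.q) ^ n =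
      ((ψ / B ^ S.q) ^ n * y ^ (n * S.q)) ^ U.m * s ^ (n * S.q) := fun ψ y B s => by
    simp only [div_eq_mul_inv, ← inv_pow]
    ring
  exact (e7 _ _ _ _).symm ▸ h7

end

end Pool.Agent.MP_ee8c61_ag.N3.Q3IZ
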