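import Pool.Agent.MP_ee8c61_ag.R3IZ.TDefs
import Pool.Agent.MP_ee8c61_ag.Q3IZ.RDat
import Pool.Agent.MP_ee8c61_ag.N3RESID.Eqn
import Pool.Agent.MP_ee8c61_ag.N3RESID.CC2

/-!
The first two terms of the local primitives over a base.
-/

namespace Pool.Agent.MP_ee8c61_ag.N3.Q3IZ

open Pool.Agent.MP_ee8c61_ag.M3 Pool.Agent.MP_ee8c61_ag.Q3IZ

set_option linter.unusedSectionVars false

variable [Base]

open H59 hiding pd
open M3 M3L M3RESID Finset MvPolynomial
open M3B1 (pd)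

noncomputable section

namespace NDat

export Pool.Agent.MP_ee8c61_ag.Q3IZ.RDat (vf vf_ap Ev ev1 ev1_ap ev_0 ev_1 δ_vf Nb_sub)

variable {f : Po 3} {M : Mod 3} {la : ℚ} {b : Polynomial ℂ} {β : Fin 3 → PX 3 (KK 3)}
  {Q : PX 3 (KK 3)}

/-- The twisted derivatives with parameters. -/
def NN (f : Po 3) (l : Fin 3) (P : PX 3 (KK 3)) : PX 3 (KK 3) :=
  dpol _ (pd 3 l) P + (∑ i, X (some i) * C (pd 3 l (xx 3 i)) +
    X none * C ((ip 3 f)⁻¹ * pd 3 l (ip 3 f))) * P

/-- Fields with parameters in a lattice. -/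
def PV (U : Cov M) (c : M.J → ℤ) (i : U.κ) (V : Fin 3 → PX 3 (KK 3)) : Prop :=
  ∀ l, ∑ m, C (M.S.e (U.bb i) l m * M.mon (U.bb i) (M.kk + 1 - c)) * V m ∈ spol _ (U.A i)

/-- One-forms with parameters in a lattice. -/
def PB (U : Cov M) (c : M.J → ℤ) (i j : U.κ) (γ : Fin 3 → PX 3 (KK 3)) : Prop :=
  ∀ l, ∑ m, C (M.S.v (U.bb i) l m * M.mon (U.bb i) (-c)) * γ m ∈ spol _ (U.A i ⊔ U.A j)

theorem ind_eq (o : M.J) : Sys.ind {o} = M.e o := by
  classical
  funext j
  rw [Sys.ind_apply, M.e_apply]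
  simp

open M3RESID.CCA hiding dvf_pd ev0_nab R_eq in
open H95G.RESA in
theorem cck (h : M.OK f) (hb : BSd f b β Q) (U : Cov M) (hA : M.AC U.w U.bb U.t U.ρ)
    (hμ : 0 < U.μ) (h1 : ∀ j, U.c0 j ≤ M.k j + 1) :
    ∃ (g : U.κ → Fin 3 → PX 3 (KK 3)) (τ : U.κ → U.κ → PX 3 (KK 3)),
      (∀ i, PV U U.c0 i fun m => β m - curl (NN f) (g i) m) ∧
      (∀ i j, PB U U.c0 i j fun m => g i m - g j m - NN f m (τ i j)) ∧
      ∀ (o : M.J) (b₁ : Polynomial ℂ), U.Big o →
        b = b₁ * (Polynomial.C (M.k o + 1 : ℂ) + Polynomial.C (M.a o : ℂ) * Polynomial.X) →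
        ∃ (G : U.κ → Fin 3 → PX 3 (KK 3)) (τ' : U.κ → U.κ → PX 3 (KK 3)),
          (∀ i, PB U U.c0 i i fun m => G i m - g i m) ∧
          (∀ i, PV U (U.c0 + M.e o) i fun m => β m - curl (NN f) (G i) m -
            C (M.S.vv (U.bb i) o m) * Polynomial.aeval (X none : PX 3 (KK 3)) b₁) ∧
          ∀ i j, PB U (U.c0 + M.e o) i j fun m => G i m - G j m - NN f m (τ' i j) := by
  have := nonempty hA
  have hr : (LS hA).r = x0 3 := h.r
  have hR : ∀ l, (LS hA).R l = pd 3 l := N3.M3L.R_eq h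
  have rg : ∀ c, ∀ y ∈ (ip 3).range, y ∈ (LS hA).A c := by
    rintro c _ ⟨p, rfl⟩
    exact LS_pol h hA c p
  obtain ⟨u, hu⟩ := hb.pol
  have hM : H95G.MainK (LS hA) (xx 3) (Units.mk0 _ (N3.M3L.f_ne h)) M.a M.k b :=
    LS_mainK h hA (u := u) (fun l e => by obtain ⟨p, hp⟩ := hu l e; exact hp ▸ p.2)
      (fun e => by obtain ⟨p, hp⟩ := hb.reg e; exact hp ▸ p.2) hb.eq
  have hP : (LS hA).Pol (xx 3) U.w (ru hA) := LS_Pol h hA _ (fun l => ⟨xp 3 l, rfl⟩) fun l => ⟨l, rfl⟩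
  have hc := cl_om hM
  have c0 := Classical.arbitrary U.κ
  have hx : ∀ l, xx 3 l ∈ om (LS hA) := fun l => hc.A c0 (hP.x_mem c0 l)
  have hf := mem_of_ord hc (hM.f_ord c0)
  have hI := mainIn hM hc hx hf
  have hβ : ∀ l e, coeff e (β l) ∈ om (LS hA) := fun l e =>
    cancel (pow_mem hf u) (hc.A c0 (rg c0 _ (hu l e)))
  choose β' hβ' using fun l => exists_lift (β l) (hβ l)
  obtain ⟨Q', hQ'⟩ := exists_lift Q fun e => hc.A c0 (rg c0 _ (hb.reg e))
  obtain ⟨φ, hφ⟩ : ∃ φ : PX 3 (om (LS hA)) →+* PX 3 (KK 3),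
    φ = map ((om (LS hA)).val : om (LS hA) →+* KK 3) := ⟨_, rfl⟩
  rw [← hφ] at hQ'
  simp only [← hφ] at hβ'
  have φC : ∀ y, φ (C y) = C ((om (LS hA)).val y) := fun y => by rw [hφ, map_C]; rfl
  have φc : ∀ e P, coeff e (φ P) = (om (LS hA)).val (coeff e P) := fun e P => by
    rw [hφ, coeff_map]; rfl
  have φa : ∀ p : Polynomial ℂ, φ (Polynomial.aeval (X none : PX 3 (om (LS hA))) p) =
      Polynomial.aeval (X none : PX 3 (KK 3)) p := fun p => by
    have := Polynomial.aeval_algHom_apply (mapAlgHom (σ := Option (Fin 3)) (om (LS hA)).val)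
      (X none) p
    rw [mapAlgHom_apply, map_X] at this
    rw [this, hφ]
    rfl
  have nb : ∀ l P, φ (nab ((sys hc).px 3).R
      ((sys hc).th (fun l => ⟨xx 3 l, hx l⟩) (un _ hf)) l P) = NN f l (φ P) := fun l P => by
    rw [hφ, NN, nab, map_add, map_mul, map_th, ← hR, ← map_dpol _ (hc.R l)]
    simp only [Sys.th, Units.val_mk0, Units.val_inv_eq_inv_val]
    rfl
  have m1 : ∀ c y, y ∈ ((sys hc).px 3).A c ↔ φ y ∈ spol _ (U.A c) := fun c y =>
    forall_congr' fun e => by rw [φc]; rfl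
  have m2 : ∀ c d y, y ∈ ((sys hc).px 3).A c ⊔ ((sys hc).px 3).A d →
      φ y ∈ spol _ (U.A c ⊔ U.A d) := fun c d y hy e => by
    have h3 : ((sys hc).px 3).A c ⊔ ((sys hc).px 3).A d ≤
        spol _ ((U.A c ⊔ U.A d).comap (om (LS hA)).val) :=
      sup_le (fun p hp e => (le_sup_left : U.A c ≤ _) (hp e))
        fun p hp e => (le_sup_right : U.A d ≤ _) (hp e)
    rw [φc]
    exact h3 hy e
  have P := CCX.pt _ _ _ _ _ (sys hc) (Option (Fin 3))
  have tV : ∀ c i V, (∀ l, V ⬝ᵥ ((sys hc).px 3).e i l * ((sys hc).px 3).mon i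
      ((fun j => (M.k j : ℤ)) + 1 - c) ∈ ((sys hc).px 3).A i) → PV U c i fun m => φ (V m) :=
    fun c i V hV l => by
      refine Eq.subst (motive := fun y => y ∈ spol _ (U.A i)) ?_ ((m1 _ _).1 (hV l))
      simp only [dotProduct, P.e, P.mon, map_mul, map_sum, φC, val_e, val_mon, sum_mul]
      refine sum_congr rfl fun m _ => ?_
      rw [mul_assoc, mul_comm]
      rfl
  have tB : ∀ c i j γ, (∀ l, (((sys hc).px 3).v i l ⬝ᵥ γ) * ((sys hc).px 3).mon i (-c) ∈
      ((sys hc).px 3).A i ⊔ ((sys hc).px 3).A j) → PB U c i j fun m => φ (γ m) :=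
    fun c i j γ hγ l => by
      refine Eq.subst (motive := fun y => y ∈ spol _ (U.A i ⊔ U.A j)) ?_ (m2 _ _ _ (hγ l))
      simp only [dotProduct, P.v, P.mon, map_mul, map_sum, φC, val_v, val_mon, sum_mul]
      refine sum_congr rfl fun m _ => ?_
      rw [mul_right_comm]
      rfl
  have inj : Function.Injective φ := hφ ▸ map_injective _ Subtype.val_injective
  have e0 : Polynomial.aeval (X none : PX 3 (KK 3)) b = C (ip 3 f) * Q + ∑ l, NN f l (β l) :=
    hb.eq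
  have xm : ∀ c (p : Polynomial ℂ), Polynomial.aeval (X none : PX 3 (KK 3)) p ∈ spol _ (U.A c) :=
    fun c p => Algebra.adjoin_le (Set.singleton_subset_iff.2 (H95G.BSA.X_mem _ _))
      (Polynomial.aeval_mem_adjoin_singleton _ _)
  obtain ⟨g, τ, e1, e2, e3⟩ := cc1p (sys hc) (fun l => ⟨xx 3 l, hx l⟩) (un _ hf) M.a M.k U.w _
    U.μ u β' (Polynomial.aeval (X none) b) Q' hI.good hI.r_mem hI.f_ord hI.det (fun c l e => by
      have := rg c _ (hu l e)
      rw [← hβ' l, φc] at this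
      exact this) (fun c => (m1 _ _).2 (hQ' ▸ fun e => rg c _ (hb.reg e))) (inj (by
      simp only [φa, map_add, map_mul, map_sum, nb, hβ', hQ', φC, e0]
      rfl)) (fun c => (m1 _ _).2 (by
      simp only [map_sum, nb, hβ']
      rw [← sub_eq_of_eq_add' e0]
      exact sub_mem (xm c b) (mul_mem (C_mem_spol (LS_pol h hA c f)) fun e => rg c _ (hb.reg e))))
    (pol_sys hc hP hx) hμ h1 h.pos
  refine ⟨fun i m => φ (g i m), fun i j => φ (τ i j), fun i => ?_, fun i j => ?_,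
    fun o b₁ ho hb₁ => ?_⟩
  · simpa only [Pi.sub_apply, map_sub, hβ', map_curl φ nb] using tV U.c0 i _ (e1 i)
  · simpa only [map_sub, nb] using tB U.c0 i j _ (e2 i j)
  obtain ⟨G, τ', f1, f2, f3⟩ := e3 o (Polynomial.aeval (X none) b₁) ⟨_, ho⟩ (by
    rw [MainX.cl_eq U.w U.μ hμ o _ ho]
    conv_lhs => rw [hb₁]
    simp [MvPolynomial.algebraMap_apply]) (Algebra.adjoin_mono
      (Set.singleton_subset_iff.2 (Set.mem_range_self none)) (Polynomial.aeval_mem_adjoin_singleton _ _))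
  rw [ind_eq] at f2 f3
  refine ⟨fun i m => φ (G i m), fun i j => φ (τ' i j), fun i => ?_, fun i => ?_, fun i j => ?_⟩
  · have := tB U.c0 i i (fun l => G i l - g i l) fun l => by
      rw [sup_idem]
      exact f1 i l
    simpa only [map_sub] using this
  · have := tV (U.c0 + M.e o) i _ (f2 i)
    simp only [Pi.sub_apply, Pi.smul_apply, smul_eq_mul, map_sub, map_mul, hβ', map_curl φ nb,
      φa, P.vv, φC] at this
    refine Eq.subst (motive := PV U (U.c0 + M.e o) i) (funext fun m => ?_) this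
    have e : (om (LS hA)).val ((sys hc).vv i o m) = M.S.vv (U.bb i) o m := by
      change (om (LS hA)).val ((M.S.lab (U.bb i) o).elim 0 ((sys hc).v i) m) =
        (M.S.lab (U.bb i) o).elim 0 (M.S.v (U.bb i)) m
      cases M.S.lab (U.bb i) o with
      | none => simp
      | some l => exact val_v hc i l m
    rw [e]
    ring
  · simpa only [map_sub, nb] using tB (U.c0 + M.e o) i j _ (f3 i j)

theorem l2_of {ψ : PX 3 (KK 3) →+ KK 3} (hψ : Ev ψ) (h : M.OK f) {U : Cov M} {c : M.J → ℤ}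
    {i : U.κ} {V : Fin 3 → PX 3 (KK 3)} (hV : PV U c i V) (l : Fin 3) :
    U.L2 c i (vf fun m => ψ (V m)) l := by
  refine CCA.mem_of_eq (hψ.mem _ _ (hV l)) ?_
  rw [map_sum, vf_ap, sum_div, sum_mul]
  refine sum_congr rfl fun m _ => ?_
  rw [hψ.lin, Sys.e, N3.M3L.R_eq h, Units.val_inv_eq_inv_val]
  ring

theorem l1_of {ψ : PX 3 (KK 3) →+ KK 3} (hψ : Ev ψ) (h : M.OK f) {U : Cov M} {c : M.J → ℤ}
    {i j : U.κ} {γ : Fin 3 → PX 3 (KK 3)} (hγ : PB U c i j γ) :
    U.L1 c i j fun m => ψ (γ m) := fun l => by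
  refine CCA.mem_of_eq (hψ.mem _ _ (hγ l)) ?_
  rw [map_sum, pr, sum_mul]
  refine sum_congr rfl fun m _ => ?_
  rw [hψ.lin, Sys.v, Sys.dv, Derivation.smul_apply, smul_eq_mul, h.r]
  change _ = (M.S.un (U.bb i) l : KK 3) * M.S.D (U.bb i) l (x0 3 m) * _ * _
  change (M.S.un (U.bb i) l : KK 3) * M.S.D (U.bb i) l (x0 3 m) * _ * _ = _
  ring

theorem ev0_NN (l : Fin 3) (P : PX 3 (KK 3)) :
    ev0 la (NN f l P) = Nb (dvf f la) (M3.co 3).D l (ev0 la P) := CCB.ev0_nab la f l P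

theorem ev1_NN (l : Fin 3) (P : PX 3 (KK 3)) : ev1 la (NN f l P) =
    Nb (dvf f la) (M3.co 3).D l (ev1 la P) + (ip 3 f)⁻¹ * pd 3 l (ip 3 f) * ev0 la P := by
  have h2 : ∀ i, pderiv none (X (some i) : PX 3 (KK 3)) = 0 := fun i => pderiv_X_of_ne (by simp)
  rw [ev1_ap, ev1_ap, ← ev0_NN, ← ev0_C (la := la) ((ip 3 f)⁻¹ * pd 3 l (ip 3 f)), ← map_mul,
    ← map_add]
  congr 1
  simp only [NN, h2, map_add, map_sum, Derivation.leibniz, pderiv_C, smul_eq_mul, mul_zero,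
    add_zero, pderiv_dpol, pderiv_X_self, mul_one, sum_const_zero, zero_add]
  ring

theorem NN_comm (l m : Fin 3) (P : PX 3 (KK 3)) : NN f l (NN f m P) = NN f m (NN f l P) := by
  have c : ∀ u, pd 3 l (pd 3 m u) = pd 3 m (pd 3 l u) := (M3.co 3).comm l m
  have h1 : dpol _ (pd 3 l) (dpol _ (pd 3 m) P) = dpol _ (pd 3 m) (dpol _ (pd 3 l) P) := by
    ext e
    simp only [coeff_dpol, c]
  have h2 : pd 3 l ((ip 3 f)⁻¹ * pd 3 m (ip 3 f)) = pd 3 m ((ip 3 f)⁻¹ * pd 3 l (ip 3 f)) := by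
    simp only [Derivation.leibniz, Derivation.leibniz_inv, smul_eq_mul, c]
    ring
  simp only [NN, map_add, map_sum, Derivation.leibniz, dpol_C, dpol_X, smul_eq_mul, mul_zero,
    add_zero, h1, h2, c]
  ring

theorem NN_sub (l : Fin 3) (P P' : PX 3 (KK 3)) : NN f l (P - P') = NN f l P - NN f l P' := by
  simp only [NN, map_sub]
  ring

theorem vf0 (g : Fin 3 → PX 3 (KK 3)) : vf (fun m => ev0 la (β m - curl (NN f) g m)) =
    bf la β - crl (dvf f la) (M3.co 3).D fun l => ev0 la (g l) := by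
  rw [crl_eq _ (M3.co 3).comm, bf, ← sum_sub_distrib]
  refine sum_congr rfl fun m _ => ?_
  simp only [map_sub, CCA.map_curl (ev0 la) ev0_NN]
  exact Derivation.ext fun u => sub_mul _ _ (pd 3 m u)

end NDat

open NDat in
theorem rowDat : OfDat := by
  intro _ f la b β Q M U H hb h hU
  have h1 : ∀ j, U.c0 j ≤ M.k j + 1 := fun j => by
    rw [Cov.c0, hU.cl, Mod.up, Int.ceil_le]
    simpa [Mod.nu] using hU.le j
  have f0 := N3.M3L.f_ne h
  obtain ⟨g, τ, e1, e2, e3⟩ := cck h H.bs U hU.ac hU.μ0 h1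
  have gm : ∀ (g g' : Fin 3 → PX 3 (KK 3)) τ, (fun m => ev0 la (g m - g' m - NN f m τ)) =
      (fun m => ev0 la (g m)) - (fun m => ev0 la (g' m)) - grd f la (ev0 la τ) :=
    fun g g' τ => funext fun m => by simp only [map_sub, ev0_NN, Pi.sub_apply, grd]
  refine ⟨⟨fun i m => ev0 la (g i m), fun i => vf fun m => ev1 la (β m - curl (NN f) (g i) m),
    fun i j => ev0 la (τ i j), fun i j m => ev1 la (g i m - g j m - NN f m (τ i j))⟩,
    fun i l => ?_, fun i l => l2_of (ev_1 la) h (e1 i) l, fun i => ?_, fun i j => ?_,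
    fun i j => l1_of (ev_1 la) h (e2 i j), fun i j u => ?_, fun o ho hB => ?_⟩
  · rw [DT.X0, ← vf0]
    exact l2_of (ev_0 la) h (e1 i) l
  · obtain ⟨p, hp⟩ := BSd.Q1 H.bs la
    refine ⟨-p, ?_⟩
    have e4 := bf1_δ H.bs la
    have e5 : ∑ l, ev1 la (NN f l (curl (NN f) (g i) l)) = 0 := by
      rw [← map_sum]
      simp [Fin.sum_univ_three, curl, NN_sub, NN_comm 1 0, NN_comm 2 0, NN_comm 2 1]
    simp only [ev1_NN, sum_add_distrib] at e5
    rw [map_neg, mul_neg, ← sub_eq_add_neg, show ip 3 p = _ from hp, ← e4, DT.X0, ← vf0, vf_ap,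
      show bf1 la β = vf fun l => ev1 la (β l) from rfl, show bf la β = vf fun l => ev0 la (β l)
      from rfl, δ_vf, δ_vf, vf_ap]
    simp only [map_sub, Nb_sub, sum_sub_distrib, sub_mul, sub_div]
    have e6 : (∑ l, ev0 la (curl (NN f) (g i) l) * pd 3 l (ip 3 f)) / ip 3 f =
        ∑ l, (ip 3 f)⁻¹ * pd 3 l (ip 3 f) * ev0 la (curl (NN f) (g i) l) := by
      rw [sum_div]
      exact sum_congr rfl fun l _ => by ring
    rw [e6]
    linear_combination -e5
  · rw [DT.γ0, ← gm]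
    exact l1_of (ev_0 la) h (e2 i j)
  · rw [DT.γ0, ← gm, crl_eq _ (M3.co 3).comm, sum_ap, vf_ap, vf_ap, ← sum_sub_distrib]
    obtain ⟨p, hp⟩ : ∃ p : Fin 3 → PX 3 (KK 3), p = fun m => g i m - g j m - NN f m (τ i j) :=
      ⟨_, rfl⟩
    have e4 : ∀ m, ev1 la (β m - curl (NN f) (g i) m) - ev1 la (β m - curl (NN f) (g j) m) =
        -ev1 la (curl (NN f) p m) := fun m => by
      rw [← map_sub, ← map_neg, hp]
      congr 1
      fin_cases m <;> simp [curl, NN_sub, NN_comm 1 0, NN_comm 2 0, NN_comm 2 1] <;> ring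
    have e5 : ∀ m, g i m - g j m - NN f m (τ i j) = p m := fun m => by rw [hp]
    simp only [← sub_mul, e4, e5]
    simp only [Fin.sum_univ_three, curl, Matrix.cons_val_zero, Matrix.cons_val_one,
      Matrix.cons_val, map_sub, ev1_NN, Lam, wg, Derivation.smul_apply, smul_eq_mul,
      show ∀ l, (M3.co 3).D l = pd 3 l from fun _ => rfl]
    ring
  · have a0 : (M.a o : ℂ) ≠ 0 := Nat.cast_ne_zero.2 (h.pos o).ne'
    have a1 : (M.k o + 1 : ℂ) = la * M.a o := by exact_mod_cast sub_eq_zero.1 ho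
    obtain ⟨q, hq⟩ := Polynomial.dvd_iff_isRoot.2 hb
    obtain ⟨G, τ', f1, f2, f3⟩ := e3 o (Polynomial.C (M.a o : ℂ)⁻¹ * q) hB (by
      rw [hq, a1, map_mul, map_neg]
      linear_combination (-(Polynomial.X + Polynomial.C (la : ℂ)) * q) *
        (by rw [← map_mul, inv_mul_cancel₀ a0, map_one] :
          Polynomial.C (M.a o : ℂ)⁻¹ * Polynomial.C (M.a o : ℂ) = 1))
    refine ⟨fun i m => ev0 la (G i m), fun i j => ev0 la (τ' i j), fun i l => ?_, fun i l => ?_,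
      fun i j => ?_⟩
    · refine CCA.mem_of_eq (neg_mem (l1_of (ev_0 la) h (f1 i) l)) ?_
      simp only [pr, ← neg_mul, ← sum_neg_distrib]
      refine congrArg₂ _ (sum_congr rfl fun m _ => ?_) rfl
      simp only [RingHom.toAddMonoidHom_eq_coe, AddMonoidHom.coe_coe, map_sub, Pi.sub_apply]
      ring
    · obtain ⟨c, hc⟩ : ∃ c : ℂ, c = (Polynomial.C (M.a o : ℂ)⁻¹ * q).eval (-(la : ℂ)) := ⟨_, rfl⟩
      have R := CCX.fr ℂ _ _ _ 3 M.S
      have e4 := l2_of (ev_0 la) h (f2 i) l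
      have e5 : ∑ m, M.S.vv (U.bb i) o m * pd 3 m (M.S.z (U.bb i) l) =
          if M.S.lab (U.bb i) o = some l then (M.S.un (U.bb i) l : KK 3) else 0 := by
        rw [Sys.vv]
        cases M.S.lab (U.bb i) o with
        | none => simp
        | some l' =>
          have := M.S.D_R (U.bb i) l' (M.S.z (U.bb i) l)
          simp only [N3.M3L.R_eq h, M.S.D_z] at this
          simp only [Option.elim_some, Sys.v, mul_assoc, ← mul_sum, ← this, Option.some.injEq]
          split_ifs with e <;> simp [e]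
      have e6 : vf (fun m => ev0 la (β m - curl (NN f) (G i) m - C (M.S.vv (U.bb i) o m) *
          Polynomial.aeval (X none : PX 3 (KK 3)) (Polynomial.C (M.a o : ℂ)⁻¹ * q)))
          (M.S.z (U.bb i) l) = (bf la β - crl (dvf f la) (M3.co 3).D fun m => ev0 la (G i m))
          (M.S.z (U.bb i) l) - algebraMap ℂ _ c *
            if M.S.lab (U.bb i) o = some l then (M.S.un (U.bb i) l : KK 3) else 0 := by
        rw [← vf0, ← e5, vf_ap, vf_ap, mul_sum, ← sum_sub_distrib]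
        refine sum_congr rfl fun m _ => ?_
        rw [map_sub, map_mul, ev0_C, ev0_aeval, ← hc]
        ring
      rw [Cov.L2] at e4
      erw [e6] at e4
      refine ⟨?_, fun hl => by simpa only [Cov.L2, if_neg hl, mul_zero, sub_zero] using e4⟩
      have m1 : M.mon (U.bb i) (M.e o) ∈ U.A i :=
        le_aw (R.mon_mem _ _ fun j => by rw [M.e_apply]; split_ifs <;> simp)
      have m2 : M.mon (U.bb i) (M.kk + 1 - U.c0) ∈ U.A i :=
        le_aw (R.mon_mem _ _ (sub_nonneg.2 h1))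
      have e7 : M.mon (U.bb i) (M.kk + 1 - (U.c0 + M.e o)) * M.mon (U.bb i) (M.e o) =
          M.mon (U.bb i) (M.kk + 1 - U.c0) := by
        rw [Mod.mon, Mod.mon, Mod.mon, ← Units.val_mul, ← R.mon_add]
        congr 2
        abel
      have e8 := mul_mem e4 m1
      rw [mul_assoc, e7, sub_div, sub_mul, mul_div_assoc] at e8
      refine CCA.mem_of_eq (add_mem e8 ?_) (sub_add_cancel _ _)
      split_ifs
      · rw [div_self (Units.ne_zero _), mul_one]
        exact mul_mem (Subalgebra.algebraMap_mem _ _) m2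
      · simp
    · rw [← gm]
      exact l1_of (ev_0 la) h (f3 i j)

end

end Pool.Agent.MP_ee8c61_ag.N3.Q3IZ
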