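import Pool.Agent.MP_ee8c61_ag.R3IZ.TDefs

/-!
The restriction of the second term of the local primitive to a double curve.
-/

namespace Pool.Agent.MP_ee8c61_ag.N3.Q3IZ

open Pool.Agent.MP_ee8c61_ag.M3 Pool.Agent.MP_ee8c61_ag.Q3IZ

set_option linter.unusedSectionVars false

variable [Base]

open M3 M3E M3RESID M3Z

noncomputable section

namespace RE1

variable {L k : Type} [Field L] [Algebra ℂ L] [Field k] [Algebra ℂ k]
  {f : Po 3} {M : Mod 3} {P : Pl (KK 3) L} {G : Pl L k} {e i : M.J}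

theorem ov (h : Fl f M P G e i)
    (hx : ∀ l, ∃ κ : ℂ, ¬Un (cmp P G.o.O) (xx 3 l - algebraMap ℂ _ κ)) {W : ValuationSubring k}
    (hW : ∀ c : ℂ, algebraMap ℂ k c ∈ W) : Ov (cmp P (cmp G W)) := by
  have ho := ov_iff.1 h.isc.2.1
  refine ov_iff.2 ⟨fun c => ⟨(ho.1 c).1, (ho.1 c).2, ?_⟩, fun l => ⟨(ho.2 l).1, (ho.2 l).2, ?_⟩⟩
  · rw [p2_cst]
    exact hW c
  · obtain ⟨κ, hκ⟩ := hx l
    have h1 : G.π (P.π (xx 3 l - algebraMap ℂ _ κ)) = 0 := by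
      by_contra h1
      exact hκ (un_p2 (sub_mem (ho.2 _) (cst_cmp κ)) h1)
    rw [p2_sub (ho.2 _) (cst_cmp κ), p2_cst, sub_eq_zero] at h1
    rw [h1]
    exact hW κ

theorem p2_zpow {g : KK 3} (hg : Un (cmp P G.o.O) g) (n : ℤ) :
    G.π (P.π (g ^ n)) = G.π (P.π g) ^ n := by
  obtain ⟨a1, a2⟩ := un_cmp.1 hg
  rw [P.o.un_O] at a1
  rw [G.o.un_O] at a2
  rw [pi_zpow a1.1 a1.2, pi_zpow a2.1 a2.2]

theorem alg (ε : Dv k) {D u : VF k} {g A B la : k} {N : ℕ} {R : ℤ} (hu : ∀ y, u y = g * D y)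
    (g0 : g ≠ 0) (A0 : A ≠ 0) (B0 : B ≠ 0) (hδ : ε.δ D = D A / A + -la * (D B / B))
    (hR : (R : k) = N * la) : u ((g * A) ^ (N : ℤ) * B ^ (-R)) =
      N * ε.δ u * ((g * A) ^ (N : ℤ) * B ^ (-R)) := by
  have e1 : u = g • D := Derivation.ext fun y => by rw [hu, Derivation.smul_apply, smul_eq_mul]
  rw [hu, e1, ε.smul, hδ, Derivation.leibniz, Dv.zpow_der _ _ B0,
    Dv.zpow_der _ _ (mul_ne_zero g0 A0), Derivation.leibniz]
  simp only [smul_eq_mul, Int.cast_neg, Int.cast_natCast, hR]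
  field_simp
  ring

/-- The computation in one chart. -/
theorem loc (h : Fl f M P G e i) {b : M.ι} (hb : M.In b (cmp P G.o.O)) {l0 l1 l2 : Fin 3}
    (hl : Lb b e i l0 l1 l2) {X : VF (KK 3)}
    (hV : ∀ l, X (M.S.z b l) / M.S.un b l ∈ cmp P G.o.O) :
    X (M.S.z b l2) ∈ cmp P G.o.O ∧ ∃ u, RR P G X u ∧ ∃ (D : VF k) (U U' : (KK 3)ˣ),
      M.S.IsU b U ∧ M.S.IsU b U' ∧ (∀ y, u y = G.π (P.π (X (M.S.z b l2))) * D y) ∧
      ∀ (la : ℚ) d ε, P.RsD (dvf f la) d → G.RsD d ε → ε.δ D =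
        D (G.π (P.π (U * M.mon b (fl e i M.kk)))) / G.π (P.π (U * M.mon b (fl e i M.kk))) +
        -algebraMap ℂ k la * (D (G.π (P.π (U' * M.mon b (fl e i M.aa)))) /
          G.π (P.π (U' * M.mon b (fl e i M.aa)))) := by
  obtain ⟨C, hC, hA⟩ := h.exists_co2 hb hl 0
  have hA3 := h.at3 hb hl 0
  have hz : ∀ l, X (M.S.z b l) = X (M.S.z b l) / M.S.un b l * M.S.un b l := fun l =>
    (div_mul_cancel₀ _ (Units.ne_zero _)).symm
  have h2V : X (M.S.z b l2) ∈ cmp P G.o.O := by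
    rw [hz, hl.un2]
    exact mul_mem (hl.un2 ▸ hV l2) (h.un_fl hb 1).2.1
  have z1F : M.S.z b l1 ∈ P.o.F 0 := hA3.z_F 1
  have hXL : X ∈ LV P.o 0 := hA3.mem_LV.2 ⟨by
      show X (M.S.z b l0) ∈ _
      rw [hz, Lb.un hl.h0]
      exact P.o.F_mul (Lb.un hl.h0 ▸ (hV l0).1) (Or.inr hA3.vz.ge), fun j hj => by
      fin_cases j
      · exact absurd rfl hj
      · show X (M.S.z b l1) ∈ _
        rw [hz, Lb.un hl.h1]
        exact F_mul0 (Lb.un hl.h1 ▸ (hV l1).1) z1F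
      · simpa [co3] using h2V.1⟩
  obtain ⟨w, hw⟩ := exists_Rs P hXL
  have e0 : C.z 0 = P.π (M.S.z b l1) := hC 0
  have e1 : C.z 1 = P.π (M.S.z b l2 - algebraMap ℂ _ 0) := hC 1
  have hy := h.un_y hb hl 0
  have w1 : w (C.z 1) = P.π (X (M.S.z b l2)) := by
    rw [e1, ← hw.2 _ hy.2.1.1, map_sub, Derivation.map_algebraMap, sub_zero]
  have hwL : w ∈ LV G.o 0 := (M3J.mem_LV hA).2 ⟨by
    rw [e0, ← hw.2 _ z1F, hz, Lb.un hl.h1, P.mul _ (Lb.un hl.h1 ▸ (hV l1).1) _ z1F, ← e0]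
    exact G.o.F_mul (Lb.un hl.h1 ▸ (hV l1).2) (M3J.z0_F hA), w1 ▸ h2V.2⟩
  obtain ⟨u, hu⟩ := exists_Rs G hwL
  obtain ⟨D, hD⟩ := exists_Rs G (hA.D_LV (j := 1) (by decide))
  have hR : P.Rs (M.S.D b l2) (C.D 1) := hC.D hA3 1
  have key : ∀ (U : (KK 3)ˣ) (c : M.J → ℤ), M.S.IsU b U →
      M.S.D b l2 (U * M.mon b c) / (U * M.mon b c) ∈ cmp P G.o.O ∧
      G.π (P.π (M.S.D b l2 (U * M.mon b c) / (U * M.mon b c))) =
        D (G.π (P.π (U * M.mon b (fl e i c)))) / G.π (P.π (U * M.mon b (fl e i c))) :=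
    fun U c hU => by
    have uV : Un (cmp P G.o.O) U := ⟨U.ne_zero, hb _ hU.1, by simpa using hb _ hU.2⟩
    obtain ⟨a1, a2⟩ := un_cmp.1 (uV.mul (h.un_fl hb c))
    rw [P.o.un_O] at a1
    rw [G.o.un_O] at a2
    have r1 := hR.dlog a1.1 a1.2
    rw [h.dlog hb hl _ U.ne_zero, r1, hD.dlog a2.1 a2.2]
    exact ⟨⟨LV_dlog hR.1 _, r1 ▸ LV_dlog hD.1 _⟩, rfl⟩
  obtain ⟨U, hU, eU⟩ := h.ok.det b
  obtain ⟨U', hU', eU'⟩ := h.ok.ord b
  obtain ⟨k1, k2⟩ := key U M.kk hU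
  obtain ⟨k3, k4⟩ := key U' M.aa hU'
  refine ⟨h2V, u, ⟨w, hw, hu⟩, D, U, U', hU, hU', fun y => w1 ▸ rs_eq hA hu hD y,
    fun la d ε hd hε => ?_⟩
  have hδ : (dvf f la).δ (M.S.D b l2) =
      M.S.D b l2 (U * M.mon b M.kk) / (U * M.mon b M.kk) + algebraMap ℂ _ (-(la : ℂ)) *
        (M.S.D b l2 (U' * M.mon b M.aa) / (U' * M.mon b M.aa)) := by
    have e3 : (M3.co 3).jac (coB h.der b) = U * M.mon b M.kk := by
      rw [← eU, h.ok.r]; rfl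
    have e4 : (coB h.der b).dv.δ (M.S.D b l2) = 0 := by
      rw [Co.dv_δ]
      refine Finset.sum_eq_zero fun j _ => ?_
      show M.S.D b j (M.S.D b l2 (M.S.z b j)) = 0
      rw [M.S.D_z]
      split_ifs <;> simp
    rw [dvf, Dv.tw_δ, (M3.co 3).dv_jac (coB h.der b), Dv.tw_δ, e3, e4, eU', map_one, one_mul,
      zero_add]
  have m1 := mul_mem (cst_cmp (P := P) (G := G) (-(la : ℂ))) k3
  rw [← hε _ _ hD, ← hd _ _ hR, hδ, p2_add k1 m1, p2_mul (cst_cmp _) k3, p2_cst, k2, k4, map_neg]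

end RE1

open RE1 in
theorem rowE1 : OfE1 := by
  intro hK f la b β Q M U D L _ _ S o hs hS k _ _ G j hF r hr
  obtain ⟨-, hG, -, -⟩ := hK f la b β Q M U D L S o hs hS
  have h := hF.fl
  have hU := hs.cov
  have := M3F.cz k
  have hA : ∀ V : ValuationSubring L, Ov (cmp S.P V) → Gi (S.qd D).ρ V r →
      M.In (U.bb r) (cmp S.P V) ∧ ∀ l, D.X1 r (M.S.z (U.bb r) l) / M.S.un (U.bb r) l *
        M.mon (U.bb r) (M.kk + 1 - U.c0) ∈ cmp S.P V := fun V hV hg => by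
    have h1 := (hU.ac.gen r _ hV).1 (((hG V hV).1 r).1 hg)
    exact ⟨h1.1, fun l => (M3L.aw_val (hU.ac.mem r) (hU.ac.ne r) _).2 h1 _ (hs.dt.x1 r l)⟩
  have c0 : ∀ i, U.c0 i = ⌈U.P i⌉ := fun i => congrFun hU.cl i
  have ct : ∀ i, U.Top la i → U.c0 i = M.k i + 1 := fun i hi => by
    rw [c0, hi.2]
    exact_mod_cast Int.ceil_natCast (R := ℚ) (M.k i + 1)
  obtain ⟨hb, hc⟩ := hA _ h.isc.2.1 hr
  generalize U.bb r = a at hA hb hc
  obtain ⟨l0, l1, l2, hl⟩ := h.labels hb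
  have hfl : fl o j (M.kk + 1 - U.c0) = M.kk + 1 - U.c0 :=
    fl_eq (by simp [Mod.kk, ct o hF.t1]) (by simp [Mod.kk, ct j hF.t2])
  have hun := h.un_fl hb (M.kk + 1 - U.c0)
  rw [hfl] at hun
  obtain ⟨h2V, u, hR, Y, U1, U2, hU1, hU2, hu, hδ⟩ := loc h hb hl fun l => hun.mem_iff.1 (hc l)
  refine ⟨u, hR, fun ε W hε hW hP hg => ?_⟩
  by_cases g0 : G.π (S.P.π (D.X1 r (M.S.z a l2))) = 0
  · exact Or.inl (Derivation.ext fun y => by rw [hu, g0, zero_mul]; rfl)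
  have hO := ov h hF.cpl hW
  obtain ⟨hb', hc'⟩ := hA _ hO hg
  have hsm := (hG _ hO).2.1 hP a hb'
  have un : ∀ (V : Vl 3) (Z : (KK 3)ˣ), M.In a V → M.S.IsU a Z → Un V Z := fun V Z h1 h2 =>
    ⟨Z.ne_zero, h1 _ h2.1, by simpa using h1 _ h2.2⟩
  have u0 := un_p2 h2V g0
  have u1 := (un _ U1 hb hU1).mul (h.un_fl hb M.kk)
  have u2 := (un _ U2 hb hU2).mul (h.un_fl hb M.aa)
  obtain ⟨N, hN⟩ : ∃ N : ℕ, N = U.m * la.den := ⟨_, rfl⟩
  obtain ⟨R, hR'⟩ : ∃ R : ℤ, R = U.m * la.num := ⟨_, rfl⟩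
  have hRN : (R : ℚ) = N * la := by
    rw [hN, hR']; push_cast; rw [mul_assoc, Rat.den_mul_eq_num]
  have uH := ((u0.mul u1).zpow N).mul (u2.zpow (-R))
  have eH := p2_mul ((u0.mul u1).zpow N).2.1 (u2.zpow (-R)).2.1
  rw [p2_zpow (u0.mul u1), p2_zpow u2, p2_mul u0.2.1 u1.2.1] at eH
  have hα : D.X1 r (M.S.z a l2) * M.mon a (fl o j (M.kk - U.c0)) ∈ cmp S.P (cmp G W) := by
    have := hc' l2
    rw [← hfl, hl.un2, show M.kk + 1 - U.c0 = M.kk - U.c0 + 1 by ring, fl_add, h.bas.mon_add,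
      div_mul_eq_mul_div, ← mul_assoc, mul_div_cancel_right₀ _ (M.mon_ne a _)] at this
    exact this
  have hcq : ∀ i, (U.c i : ℚ) = U.m * (U.P i - la * M.a i) := fun i => by
    simpa [Mod.q, Mod.aa] using congrFun hU.c i
  have hy : 0 ≤ N • U.c0 - R • M.aa - la.den • U.c := fun i => by
    have h1 : (0 : ℚ) ≤ N * U.c0 i - R * M.a i - la.den * U.c i := by
      rw [hcq, hRN, c0, show (N : ℚ) * ⌈U.P i⌉ - N * la * M.a i -
        la.den * (U.m * (U.P i - la * M.a i)) = N * (⌈U.P i⌉ - U.P i) by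
          rw [hN]; push_cast; ring]
      exact mul_nonneg (Nat.cast_nonneg _) (sub_nonneg.2 (Int.le_ceil _))
    simp only [Pi.zero_apply, Pi.sub_apply, Pi.smul_apply, nsmul_eq_mul, smul_eq_mul, Mod.aa]
    exact_mod_cast h1
  have hz : ∀ i, U.Top la i → N * U.c0 i - R * M.a i = 0 := fun i hi => by
    have h1 : (N * U.c0 i - R * M.a i : ℚ) = 0 := by
      have h2 : (M.k i + 1 - la * M.a i : ℚ) = 0 := hi.1
      rw [ct i hi, hRN]
      push_cast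
      linear_combination (N : ℚ) * h2
    exact_mod_cast h1
  have hex : N • fl o j M.kk = N • fl o j (M.kk - U.c0) + (N • U.c0 - R • M.aa - la.den • U.c) +
      la.den • U.c + R • fl o j M.aa := funext fun i => by
    simp only [fl, Pi.add_apply, Pi.sub_apply, Pi.smul_apply, nsmul_eq_mul, smul_eq_mul, Mod.aa,
      Pi.mul_apply, Pi.natCast_apply]
    split_ifs with hi
    · have := hz i (by rcases hi with rfl | rfl; exacts [hF.t1, hF.t2])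
      linear_combination -this
    · ring
  have mz : ∀ (n : ℤ) c, M.mon a (n • c) = M.mon a c ^ n := fun n c => by
    obtain ⟨m, rfl | rfl⟩ := Int.eq_nat_or_neg n
    · rw [natCast_zsmul, h.bas.mon_nsmul, zpow_natCast]
    · rw [neg_smul, h.bas.mon_neg, natCast_zsmul, h.bas.mon_nsmul, zpow_neg, zpow_natCast]
  have e5 := congrArg (M.mon a) hex
  rw [h.bas.mon_add, h.bas.mon_add, h.bas.mon_add, h.bas.mon_nsmul, h.bas.mon_nsmul,
    h.bas.mon_nsmul, mz] at e5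
  have e6 : (D.X1 r (M.S.z a l2) * (U1 * M.mon a (fl o j M.kk))) ^ (N : ℤ) *
      (U2 * M.mon a (fl o j M.aa)) ^ (-R) =
      (D.X1 r (M.S.z a l2) * M.mon a (fl o j (M.kk - U.c0))) ^ N * ((U1 : KK 3) ^ N * U2 ^ (-R)) *
        M.mon a (N • U.c0 - R • M.aa - la.den • U.c) * M.mon a U.c ^ la.den := by
    have := zpow_ne_zero R (M.mon_ne a (fl o j M.aa))
    rw [zpow_natCast, mul_pow, mul_pow, mul_pow, e5, mul_zpow, zpow_neg (M.mon a _)]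
    field_simp
  have m1 := mul_mem (mul_mem (pow_mem hα N) (((un _ U1 hb' hU1).pow N).mul
    ((un _ U2 hb' hU2).zpow (-R))).2.1) (hb' _ (h.bas.mon_mem a _ hy))
  have m2 := pow_mem hsm.1 la.den
  have m3 := not_un_mul m1 m2 fun x => hsm.2 (x.of_pow la.pos)
  have m4 := mul_mem m1 m2
  rw [← e6] at m3 m4
  refine Or.inr ⟨N, _, hN ▸ Nat.mul_pos hU.m0 la.pos, eH ▸ p2_ne uH,
    alg ε hu g0 (p2_ne u1) (p2_ne u2) (hδ la _ ε hS.rd hε) ?_, eH ▸ m4.2.2, fun x => m3 ?_⟩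
  · rw [map_ratCast]
    exact_mod_cast congrArg (Rat.cast : ℚ → k) hRN
  · exact un_cmp.2 ⟨(un_cmp.1 uH).1, un_cmp.2 ⟨(un_cmp.1 uH).2, eH ▸ x⟩⟩

end

end Pool.Agent.MP_ee8c61_ag.N3.Q3IZ
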