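import Pool.Agent.MP_ee8c61_ag.R3IZ.TDefs
import Pool.Agent.MP_ee8c61_ag.N3K.Asm
import Pool.Agent.MP_ee8c61_ag.N3.FKit2
import Pool.Agent.MP_ee8c61_ag.N3.TrRef
import Pool.Agent.MP_ee8c61_ag.N3.RIT
import Pool.Agent.MP_ee8c61_ag.N3E.RUnr

/-! Core curves of exponent zero are double curves. -/

namespace Pool.Agent.MP_ee8c61_ag.N3.Q3IZ

open Pool.Agent.MP_ee8c61_ag.M3 Pool.Agent.MP_ee8c61_ag.Q3IZ

set_option linter.unusedSectionVars false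

variable [Base]

open M3 M3E M3RESID M3K Finset RIT

namespace RFlag

section Nn

variable {N : ℕ} {f : Po N} {W : Mod N} {k : Type} [Field k] [Algebra ℂ k] {P : Pl (KK N) k}
  {Γ : DV k} {o : W.J} {c c' : W.J → ℤ} {T : Finset (KK N)}

theorem nn_mul (E : EOut) (hW : W.OK f) {V : Vl N} (h : Nn W V c) (hV : Ov V) (m : ℕ) :
    Nn W V ((m + 1) • c) := by
  have B := E.bas N f W hW
  have G := rowNg0 E N f W hW
  obtain ⟨s, h1, s', h2, h3, h4⟩ := h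
  obtain ⟨a, ha⟩ := hW.cov V hV
  have s0 : s ≠ 0 := fun e => (h3 a ha).1 (by rw [e, zero_mul])
  refine ⟨s ^ (m + 1), G.pow _ _ _ h1, s ^ m * s', ?_, B.gen_pow _ _ _ _ h3, ?_⟩
  · rw [succ_nsmul]
    exact G.mul _ _ _ (G.pow _ _ _ h1) _ h2
  · rwa [pow_succ, mul_div_mul_left _ _ (pow_ne_zero _ s0)]

/-- Proportional free divisors contract the same complete curves. -/
theorem nn_tr (E : EOut) (hW : W.OK f) (h : Lv W o P Γ) (hT : W.Gens c' T) (hc : c' o = 0)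
    {m m' : ℕ} (hm : 0 < m) (e : m • c = m' • c') (hx : ∀ l, ¬NC Γ (P.π (xx N l)))
    (hn : Nn W (lift P Γ) c) :
    ∃ s ∈ T, ∃ s' ∈ T, W.Gen (lift P Γ) c' s ∧ Tc (lift P Γ) (s' / s) := by
  classical
  obtain ⟨m, rfl⟩ := Nat.exists_eq_succ_of_ne_zero hm.ne'
  by_contra! x
  refine h.not_nn_of E hW hT hc hx (fun s hs s' hs' y => ?_) m' (e ▸ nn_mul E hW hn h.ov m)
  obtain ⟨g, hg, rfl⟩ := mem_image.1 hs.1
  obtain ⟨g', hg', rfl⟩ := mem_image.1 hs'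
  have h1 := (h.gns_iff hT hc hg).1 hs
  obtain ⟨h2, h3⟩ := h.pi_ratio hc (hT.1 g' hg') h1
  exact x g hg g' hg' h1 ((nc_iff h2.1).1 (h3 ▸ y))

end Nn

variable {f : Po 3} {la : ℚ} {b : Polynomial ℂ} {β : Fin 3 → H59.PX 3 (KK 3)}
  {Q : H59.PX 3 (KK 3)} {M : Mod 3} {U : Cov M} {C : Ch f M}

theorem alive (E : EOut) (hM : M.OK f) (hP : C.P M.nu = C.D.pb U.P) (o : M.J) :
    C.Alive o ↔ U.P o = M.k o + 1 := by
  rw [((kout_of E).kb 3 f M C hM).alive, dl, Pi.sub_apply, hP, (E.dc 3 f C.W M C.D C.ok hM).pb_e,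
    Mod.nu, (E.jd 3 f C.W M C.D C.ok hM).2, sub_eq_zero, eq_comm]

theorem pb_c (E : EOut) (hM : M.OK f) (hU : U.OK la) (hP : C.P M.nu = C.D.pb U.P) :
    C.W.q (C.D.pb U.c) = U.m • C.P (M.ex la) := by
  have e : M.ex la = M.nu - la • M.q M.aa := funext fun j => by simp [Mod.ex, Mod.nu, Mod.aa]
  rw [C.D.q_pb, hU.c, C.D.pb_nsmul, C.D.pb_sub, C.D.pb_smul, ← C.D.q_pb,
    (E.dc 3 f C.W M C.D C.ok hM).aa, e, map_sub, map_smul, ((kout_of E).ka 3 f M C hM).aa, hP]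

theorem c_top (hU : U.OK la) {j : M.J} (h : U.Top la j) : U.c j = 0 := by
  have h1 := congrFun hU.c j
  have h2 := h.1
  simp only [Mod.q_apply, Pi.smul_apply, Pi.sub_apply, h.2, Mod.aa, smul_eq_mul, nsmul_eq_mul,
    Int.cast_natCast, Mod.ex] at h1 h2
  rw [h2, mul_zero] at h1
  exact_mod_cast h1

variable {o : M.J} {X : Ch.AV (M := M) o} {Y : C.AS o} {Γ : DV (M.v o).kf}

theorem al_eq (E : EOut) (hM : M.OK f) (h0 : M.ex la o = 0) :
    (C.sd la b o X Y).α Γ = ∑ i, C.P (M.ex la) i * C.W.tr (M.v o).pl Γ i := by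
  simp only [P_sum C ((kout_of E).ka 3 f M C hM) h0, sum_mul]
  rw [sum_comm]
  exact sum_congr rfl fun j _ => by simp only [Ch.sd, mul_sum, mul_assoc]

/-- The datum along a double curve of the upper model. -/
theorem on_cv (E : EOut) (h : Q3.Sit0 f la b β Q M C o) (hX : X.OK f la β)
    (hL : Lv C.W (C.D.e o) (M.v o).pl Γ) (hs : ∃ π, Γ.v π = 1) {i : C.W.J}
    (hV : C.W.IsCv (C.D.e o) i (lift (M.v o).pl Γ)) :
    (∀ j : C.Nb o, (C.sd la b o X Y).β j Γ = C.P (M.q (M.e j.1)) i) ∧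
      (C.sd la b o X Y).α Γ = C.P (M.ex la) i ∧ (C.sd la b o X Y).ex Γ = C.W.ex la i ∧
      Exp X.d Γ (C.W.ex la i) := by
  have K := (kout_of E).ka 3 f M C h.ok
  have hC := E.cv 3 f C.W C.ok
  have h1 := exp_cv C.ok hC hL hs hV (la := la) (by
    rw [ex_W C K, Pi.add_apply, (((kout_of E).kb 3 f M C h.ok).alive o).1 h.alive, h.alive, h.zero,
      add_zero]) hX.rd
  exact ⟨fun j => hL.sum_cv hC hs hV _, (al_eq E h.ok h.zero).trans (hL.sum_cv hC hs hV _),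
    eps_eq hs h1, h1⟩

end RFlag

open RFlag in
theorem rowFlag : OfFlag := by
  classical
  intro E f la b β Q M U C hM hU ht hP
  refine ⟨alive E hM hP, fun o X Y h hX hY _ => ?_⟩
  have K := kout_of E
  have Ka := K.ka 3 f M C hM
  have Kb := K.kb 3 f M C hM
  have B := E.bas 3 f M hM
  have BW := E.bas 3 f C.W C.ok
  have Dc := E.dc 3 f C.W M C.D C.ok hM
  have T := K.th 3 f C.W M C.D C.ok hM
  have t1 : U.Top la o := ⟨h.zero, (alive E hM hP o).1 h.alive⟩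
  have pc := pb_c E hM hU hP
  have ce : C.D.pb U.c (C.D.e o) = 0 := (Dc.pb_e _ _ _).trans (c_top hU t1)
  have gT := Dc.gens _ _ hU.gens
  have c0 : C.W.q Y.c0 = Y.m • C.P (M.ex la) := by simpa [Ch.pt, ht] using hY.c0
  have c0e : Y.c0 (C.D.e o) = 0 := by
    have := congrFun c0 (C.D.e o)
    rw [Pi.smul_apply, h.alive, h.zero, smul_zero] at this
    exact Int.cast_eq_zero.1 this
  have cc : U.m • Y.c0 = Y.m • C.D.pb U.c := C.W.q_inj (by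
    rw [C.W.q_nsmul, C.W.q_nsmul, c0, pc, smul_comm])
  have lv : ∀ Γ, M3.Cv (C.sd la b o X Y).x Γ → Lv C.W (C.D.e o) (M.v o).pl Γ := fun Γ hΓ =>
    lv_of C.ok BW.toBas1 (C.D.v o).symm hΓ.bas
  refine ⟨fun s hs s0 Γ hΓ => ?_, fun Γ j hz => ?_, fun Γ j hF => ?_⟩
  · have h1 := ((lv Γ hΓ).H_F ce (gT.1 s hs)).2.resolve_left s0
    rw [al_eq E hM h.zero, mul_sum]
    refine le_of_eq_of_le ?_ (Int.cast_le.2 h1)
    push_cast
    refine congrArg _ (sum_congr rfl fun i _ => ?_)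
    have := congrFun pc i
    rw [Mod.q_apply, Pi.smul_apply, nsmul_eq_mul] at this
    rw [this, mul_assoc]
  · have hL := lv Γ hz.cv
    have hn : Nn C.W (lift (M.v o).pl Γ) Y.c0 := by
      by_contra x
      exact hz.nn ⟨hz.cpl, fun s hs s' hs' y => x (hL.nn_of hY.T0 c0e hs hs' y)⟩
    obtain ⟨s, hs, s', hs', g1, g2⟩ := nn_tr E C.ok hL gT ce hU.m0 cc hz.cpl hn
    have g3 := (Dc.gen _ _ _ hL.ov).2 g1
    obtain ⟨i, hi⟩ : ∃ i, 0 < C.W.tr (M.v o).pl Γ i := by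
      by_contra! h0
      have h1 : (∑ i, C.P (M.q (M.e j.1)) i * C.W.tr (M.v o).pl Γ i : ℚ) = 1 := hz.core.2.1
      rw [sum_eq_zero fun i _ => by rw [le_antisymm (h0 i) (hL.tr_nonneg i)]; simp] at h1
      exact zero_ne_one h1
    obtain ⟨h1, h2⟩ := (hL.tr_pos_iff i).1 hi
    obtain ⟨a, ha⟩ := hL.cov
    have hV := K.up f C.W C.ok _ i _ a _ h1 ha hL.le h2
      ((K.ng0 3 f C.W C.ok).lc _ _ a s (gT.1 s hs) s' (gT.1 s' hs') ha g1) g2
    obtain ⟨e1, e2, e3, -⟩ := on_cv (Y := Y) E h hX hL hz.cv.sur hV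
    have h5 := hz.core.1
    rw [e3, e2, ex_W C Ka, Pi.add_apply, add_eq_right] at h5
    have h6 := (e1 j).symm.trans hz.core.2.1
    rw [(Kb.tame i h5).2, ← C.D.q_pb, Mod.q_apply, C.D.pb_e, Int.cast_natCast] at h6
    obtain ⟨a', ha'⟩ := hM.cov _ hL.ov
    refine ⟨⟨hM, B, E.der 3 f M hM, E.cv 3 f M hM, rowUnr, rfl, hz.cv.sur,
      K.up f M hM o j.1 _ a' _ j.2.1 ha' lift_le
        ((T _ _ hL.ov).2 ⟨i, h2, Nat.cast_pos.1 (h6 ▸ one_pos)⟩)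
        ((K.ng0 3 f M hM).lc _ _ a' s (hU.gens.1 s hs) s' (hU.gens.1 s' hs') ha' g3) g2⟩, t1,
      ⟨hz.al, (alive E hM hP _).1 j.2.2⟩,
      fun l => not_forall.1 fun e => hz.cpl l ((hL.nc_x l).2 e), s, hs, s', hs', g3, g2⟩
  · have hV : M.IsCv o j.1 (lift (M.v o).pl Γ) := hF.fl.isc
    have hM' : Lv M o (M.v o).pl Γ := ⟨B.toBas1, rfl, hM.cov _ hV.2.1⟩
    have hL := hM'.up C.D C.ok BW.toBas1
    obtain ⟨s, hs, s', hs', g3, g2⟩ := hF.nt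
    have g1 := (Dc.gen _ _ _ hL.ov).1 g3
    have cpl : ∀ l, ¬NC Γ ((M.v o).pl.π (xx 3 l)) := fun l e =>
      (hF.cpl l).elim fun c hc => hc ((hL.nc_x l).1 e c)
    obtain ⟨h2, h3⟩ := hL.pi_ratio ce (gT.1 s' hs') g1
    have cv : M3.Cv (C.sd la b o X Y).x Γ :=
      ⟨hF.fl.nrm, fun l => (hV.2.1 (xp 3 l)).2, _, (nc_iff h2.1).2 g2⟩
    obtain ⟨i, i1, i2⟩ := (T _ _ hL.ov).1 hV.2.2.2.1
    have io : i ≠ C.D.e o := fun e => by
      have := Dc.pb_e ℤ (M.e j.1) o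
      rw [C.D.pb_e, M.e_apply, if_neg j.2.1.symm, ← e] at this
      omega
    obtain ⟨a, ha⟩ := hL.cov
    have hW := K.up f C.W C.ok _ i _ a _ io ha hL.le i1
      ((K.ng0 3 f C.W C.ok).lc _ _ a s (gT.1 s hs) s' (gT.1 s' hs') ha g1) g2
    obtain ⟨e1, e2, e3, e4⟩ := on_cv (Y := Y) E h hX hL cv.sur hW
    have mm : ∀ l, l ≠ o → (C.D.m i l : ℤ) = if l = j.1 then 1 else 0 := fun l hl => by
      rw [← hM'.tr_cv (E.cv 3 f M hM) cv.sur hV, tr_ref C.D hM' hL hl]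
      simpa using (hL.sum_cv (R := ℤ) (E.cv 3 f C.W C.ok) cv.sur hW fun i => C.D.m i l).symm
    have x1 : C.W.ex la i = 0 := by
      have := e4.uniq (exp_cv hM (E.cv 3 f M hM) hM' cv.sur hV h.zero hX.rd) cv.sur.choose_spec
      rw [hF.t2.1] at this
      exact_mod_cast this
    have x2 : C.P (M.ex la) i = 0 := by
      have h4 := congrFun pc i
      rw [Mod.q_apply, Pi.smul_apply, nsmul_eq_mul, Dom.pb, sum_eq_zero fun l _ => ?_,
        Int.cast_zero] at h4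
      · exact (mul_eq_zero.1 h4.symm).resolve_left (Nat.cast_ne_zero.2 hU.m0.ne')
      by_cases hl : l = o
      · rw [hl, c_top hU t1, mul_zero]
      rw [mm l hl]
      split_ifs with e
      · rw [e, c_top hU hF.t2, mul_zero]
      · exact zero_mul _
    have h5 : dl C i = 0 := by rwa [ex_W C Ka, Pi.add_apply, x2, add_zero] at x1
    have hβ : ∀ l : C.Nb o, (C.sd la b o X Y).β l Γ = if l.1 = j.1 then 1 else 0 := fun l => by
      rw [e1, (Kb.tame i h5).2, ← C.D.q_pb, Mod.q_apply, C.D.pb_e, mm l.1 l.2.1]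
      split_ifs <;> simp
    refine ⟨cv, ⟨by rw [e3, e2, x1, x2], by rw [hβ, if_pos rfl], fun l hl =>
      (hβ l).trans (if_neg fun e => hl (Subtype.ext e))⟩, hF.t2.1, cpl, fun hn => ?_⟩
    obtain ⟨r, hr, r', hr', g4, g5⟩ := nn_tr E C.ok hL hY.T0 c0e hY.m cc.symm cpl
      ⟨s, gT.1 s hs, s', gT.1 s' hs', g1, g2⟩
    obtain ⟨h6, h7⟩ := hL.pi_ratio c0e (hY.T0.1 r' hr') g4
    exact hn.2 _ ((hL.gns_iff hY.T0 c0e hr).2 g4) _ (mem_image_of_mem _ hr')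
      (h7 ▸ (nc_iff h6.1).2 g5)

end Pool.Agent.MP_ee8c61_ag.N3.Q3IZ
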