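import Pool.Agent.MP_ee8c61_ag.R3IZ.TDefs

/-!
Generators, positivity and logarithmic bivectors on a divisor of exponent zero.
-/

namespace Pool.Agent.MP_ee8c61_ag.N3.Q3IZ

open Pool.Agent.MP_ee8c61_ag.M3 Pool.Agent.MP_ee8c61_ag.Q3IZ

set_option linter.unusedSectionVars false

variable [Base]

open H59 hiding pd
open M3 M3E M3RESID M3F
open M3Z (cmp cmp_le un_cmp)

noncomputable section

namespace RKit

variable {f : Po 3} {la : ℚ} {β : Fin 3 → PX 3 (KK 3)} {M : Mod 3} {U : Cov M} {L : Type}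
  [Field L] [Algebra ℂ L] {S : Sd L U.κ} {o : M.J}

/-- A generator stays a generator on a larger valuation ring. -/
theorem gen_mono (h : M.OK f) (hB : Bas1 M) {V V' : Vl 3} (hV : Ov V) (le : V ≤ V')
    {c : M.J → ℤ} {g : KK 3} (hg : M.Gen V c g) : M.Gen V' c g := by
  obtain ⟨a, ha⟩ := h.cov V hV
  exact (hB.gen_iff a V' c g fun x hx => le (ha x hx)).2 ((hg a ha).mono le)

theorem c0_top (hU : U.OK la) (ht : U.Top la o) : U.c0 o = M.k o + 1 := by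
  rw [Cov.c0, hU.cl, Mod.up, ht.2]
  exact_mod_cast Int.ceil_natCast (R := ℚ) (M.k o + 1)

theorem c_top (hU : U.OK la) (ht : U.Top la o) : U.c o = 0 := by
  have h1 := congrFun hU.c o
  have h2 := ht.1
  simp only [Mod.q, Mod.aa, Mod.ex, Pi.smul_apply, Pi.sub_apply, ht.2, smul_eq_mul,
    Int.cast_natCast] at h1 h2
  rw [h2, smul_zero] at h1
  exact_mod_cast h1

/-- The ring of a set of the cover lies in the valuation rings at which its section generates. -/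
theorem A_le (h : M.OK f) (hU : U.OK la) {V : Vl 3} (hV : Ov V) {r : U.κ}
    (hr : M.Gen V U.w (U.ρ r)) : ∀ g ∈ U.A r, g ∈ V := (M3L.LS_val h hU.ac r V).2 ⟨hV, hr⟩

theorem ov (hB : Bas1 M) (hS : S.OK f la β o) : Ov S.P.o.O := hS.po ▸ hB.ov_v o

theorem r0 (h : M.OK f) (hB : Bas1 M) (hU : U.OK la) (hS : S.OK f la β o) (i : U.κ) :
    U.ρ i / U.ρ S.i0 ∈ S.P.o.F 0 := by
  obtain ⟨a, ha⟩ := h.cov _ (ov hB hS)
  exact M3L.div_mem_of_gen ha (hU.ac.sec i _ (ov hB hS)) hS.i0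

theorem T_F (hB : Bas1 M) (hU : U.OK la) (hS : S.OK f la β o) {s : KK 3} (hs : s ∈ U.T) :
    s ∈ S.P.o.F 0 := by
  have := (hB.oc_v o _ s).1 (hU.gens.1 s hs _ (hB.ov_v o))
  rwa [c_top hU hS.top, neg_zero, ← hS.po] at this

theorem pi_ratio (h : M.OK f) (hB : Bas1 M) (hU : U.OK la) (hS : S.OK f la β o) {r : U.κ}
    (hr : Un S.P.o.O (U.ρ r / U.ρ S.i0)) (i : U.κ) : U.ρ i / U.ρ r ∈ S.P.o.F 0 ∧
      S.P.π (U.ρ i / U.ρ r) = S.P.π (U.ρ i / U.ρ S.i0) / S.P.π (U.ρ r / U.ρ S.i0) := by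
  rw [← div_div_div_cancel_right₀ (M3L.rho_ne hU.ac S.i0) (U.ρ i) (U.ρ r)]
  exact ⟨mul_mem (s := S.P.o.O) (r0 h hB hU hS i) (by simpa using hr.2.2),
    Pl.π_div (r0 h hB hU hS i) hr.1 (S.P.o.un_O.1 hr).2⟩

theorem gi_iff (h : M.OK f) (hB : Bas1 M) (hU : U.OK la) (hS : S.OK f la β o) (D : DT U.κ)
    {V : ValuationSubring L} (hV : Ov (cmp S.P V)) (r : U.κ) :
    Gi (S.qd D).ρ V r ↔ M.Gen (cmp S.P V) U.w (U.ρ r) := by
  have ne := M3L.rho_ne hU.ac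
  obtain ⟨a, ha⟩ := h.cov _ hV
  refine ⟨fun hr => ?_, fun hr => ?_⟩
  · obtain ⟨i, hi⟩ := hU.ac.cov _ hV
    obtain ⟨h1, h2⟩ := pi_ratio h hB hU hS ((M3.pi_ne_iff (r0 h hB hU hS r)).1 hr.1) i
    refine M3L.gen_of_un hi (ne i) ⟨div_ne_zero (ne _) (ne _),
      M3L.div_mem_of_gen ha (hU.ac.sec _ _ hV) hi, ?_⟩
    rw [inv_div]
    exact ⟨h1, h2 ▸ hr.2 i⟩
  · obtain ⟨a', ha'⟩ := h.cov _ (ov hB hS)
    have h1 : Un S.P.o.O (U.ρ r / U.ρ S.i0) := ⟨div_ne_zero (ne _) (ne _), r0 h hB hU hS r, by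
      rw [inv_div]
      exact M3L.div_mem_of_gen ha' (hU.ac.sec _ _ (ov hB hS))
        (gen_mono h hB hV (cmp_le _ _) hr)⟩
    exact ⟨(M3.pi_ne_iff h1.2.1).2 h1, fun i => (pi_ratio h hB hU hS h1 i).2 ▸
      (M3L.div_mem_of_gen ha (hU.ac.sec i _ hV) hr).2⟩

theorem ps_iff (h : M.OK f) (hB : Bas1 M) (hU : U.OK la) (hS : S.OK f la β o) (D : DT U.κ)
    {V : ValuationSubring L} (hV : Ov (cmp S.P V)) :
    (S.qd D).Ps V ↔ ∀ a, M.In a (cmp S.P V) → Sm (cmp S.P V) (M.mon a U.c) := by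
  classical
  refine ⟨fun ⟨y, hy, h1⟩ a ha => ?_, fun H => ?_⟩
  · obtain ⟨s, hs, rfl⟩ := Finset.mem_image.1 hy
    have h2 : s ∉ cmp S.P V := fun e => h1 e.2
    have s0 : s ≠ 0 := fun e => h2 (e ▸ zero_mem _)
    have h3 := hU.gens.1 s hs _ hV a ha
    refine ⟨?_, fun e => h2 ?_⟩
    · have := mul_mem (((cmp S.P V).mem_or_inv_mem s).resolve_left h2) h3
      rwa [inv_mul_cancel_left₀ s0] at this
    · have := mul_mem h3 e.2.2
      rwa [mul_inv_cancel_right₀ e.1] at this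
  · obtain ⟨a, ha⟩ := h.cov _ hV
    obtain ⟨s, hs, h1⟩ := hU.gens.2 _ hV
    refine ⟨_, Finset.mem_image_of_mem _ hs, fun e => (H a ha).2 ⟨M.mon_ne a _, (H a ha).1, ?_⟩⟩
    have := mul_mem (show s ∈ cmp S.P V from ⟨T_F hB hU hS hs, e⟩) (h1 a ha).2.2
    rwa [mul_inv, mul_inv_cancel_left₀ (left_ne_zero_of_mul (h1 a ha).1)] at this

/-- The chart of a generator. -/
theorem chart (h : M.OK f) (hB : Bas1 M) (hU : U.OK la) (hS : S.OK f la β o) {r : U.κ}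
    (hr : M.Gen S.P.o.O U.w (U.ρ r)) : ∃ l, (cht h (U.bb r)).At S.P.o l ∧ l ∈ ls M (U.bb r) ∧
      lf M (U.bb r) (M.kk + 1 - U.c0) l = 0 := by
  obtain ⟨-, hη, ⟨l, hl⟩, -⟩ := hB.in_v _ _ o (M3L.LS_in hU.ac (A_le h hU (ov hB hS) hr))
    (hB.thru_le _ o (ov hB hS) (hS.po ▸ le_rfl))
  refine ⟨l, hS.po ▸ (cht_dat h hl hη).adp, mem_ls.2 ⟨o, hl⟩, ?_⟩
  rw [lf_some hl]
  simp [Mod.kk, c0_top hU hS.top]

theorem lgb (h : M.OK f) (hB : Bas1 M) (hU : U.OK la) (hS : S.OK f la β o) {r r' : U.κ}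
    {γ : Fin 3 → KK 3} (hr : M.Gen S.P.o.O U.w (U.ρ r)) (hr' : M.Gen S.P.o.O U.w (U.ρ r'))
    (hγ : U.L1 U.c0 r r' γ) : LgB (M3.co 3) S.P.o γ := by
  obtain ⟨l, hat, hs, hc⟩ := chart h hB hU hS hr
  obtain ⟨u, -, u1, u0, u2⟩ := cht_jac h (U.bb r)
  refine Pl.lgB_chart _ hat hs hc fun l => ?_
  have := mul_mem (sup_mem (A_le h hU (ov hB hS) hr) (A_le h hU (ov hB hS) hr') (hγ l))
    (M3L.LS_in hU.ac (A_le h hU (ov hB hS) hr) _ u1)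
  refine F_of_eq this ?_
  rw [lfr_J3, u2, ← lf_one, ← cht_mon h, ← cht_mon h, ← cht_mon h, sub_eq_add_neg (M.kk + 1),
    hB.mon_add, hB.mon_add, Sys.dv, un_eq]
  have := M.mon_ne (U.bb r) M.kk
  have := M.mon_ne (U.bb r) 1
  rw [lfr]
  field_simp
  rfl

theorem lv (h : M.OK f) (hB : Bas1 M) (hU : U.OK la) (hS : S.OK f la β o) {r : U.κ}
    {X : VF (KK 3)} (hr : M.Gen S.P.o.O U.w (U.ρ r)) (hX : ∀ l, U.L2 U.c0 r X l) :
    X ∈ LV S.P.o 0 := by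
  obtain ⟨l, hat, hs, hc⟩ := chart h hB hU hS hr
  have d1 := fun l => A_le h hU (ov hB hS) hr _ (hX l)
  simp only [un_eq, cht_mon h] at d1
  exact Pl.LV_chart hat hs hc d1

end RKit

open RKit in
theorem rowKit : TKit := fun f _ _ _ _ M _ D _ _ _ S _ H hS =>
  have hB := (H.E.bas 3 f M H.ok).toBas1
  ⟨⟨hS.fin, hS.q0, hS.ψ0, hS.rat, H.cov.m0,
    (res_prim H.ok H.hyp.bs hS.po hS.rd hS.rv).trans (by rw [H.root, map_zero]), S.i0, by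
      change S.P.π _ ≠ 0
      rw [div_self (M3L.rho_ne H.cov.ac _), Pl.π_one]
      exact one_ne_zero⟩,
    fun _ hV => ⟨gi_iff H.ok hB H.cov hS D hV, ps_iff H.ok hB H.cov hS D hV⟩,
    fun _ _ _ => lgb H.ok hB H.cov hS, fun _ _ => lv H.ok hB H.cov hS⟩

end

end Pool.Agent.MP_ee8c61_ag.N3.Q3IZ
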