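import Pool.Agent.MP_ee8c61_ag.R3IZ.TDefs

/-!
Residues of one-forms of the lattice vanish where the class is positive.
-/

namespace Pool.Agent.MP_ee8c61_ag.N3.Q3IZ

open Pool.Agent.MP_ee8c61_ag.M3 Pool.Agent.MP_ee8c61_ag.Q3IZ

set_option linter.unusedSectionVars false

variable [Base]

open H59 hiding pd
open M3 M3E M3RESID M3F
open M3J (ex br)
open M3Z (cmp Fl)

noncomputable section

namespace RLat

section Val

variable {K L : Type} [Field K] [Field L] {V : ValuationSubring L} {g x : L}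

theorem sm_root {n : ℕ} (hn : 0 < n) (h : Sm V (g ^ n)) : Sm V g := by
  have h1 : g ∈ V := by
    by_contra hg
    have h2 : g⁻¹ ∈ V := (V.mem_or_inv_mem g).resolve_left hg
    have h0 : g ≠ 0 := fun e => hg (e ▸ zero_mem V)
    obtain ⟨m, rfl⟩ : ∃ m, n = m + 1 := ⟨n - 1, by omega⟩
    have := mul_mem h.1 (pow_mem h2 m)
    rw [pow_succ', inv_pow, mul_inv_cancel_right₀ (pow_ne_zero _ h0)] at this
    exact hg this
  exact ⟨h1, fun u => h.2 ⟨pow_ne_zero _ u.1, h.1, by rw [← inv_pow]; exact pow_mem u.2.2 n⟩⟩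

theorem sm_mul (hx : x ∈ V) (h : Sm V g) : Sm V (x * g) :=
  ⟨mul_mem hx h.1, fun u => h.2 ⟨right_ne_zero_of_mul u.1, h.1, by
    have := mul_mem hx u.2.2
    rwa [mul_inv, mul_inv_cancel_left₀ (left_ne_zero_of_mul u.1)] at this⟩⟩

theorem sm_pow {n : ℕ} (hn : 0 < n) (h : Sm V g) : Sm V (g ^ n) := by
  obtain ⟨m, rfl⟩ : ∃ m, n = m + 1 := ⟨n - 1, by omega⟩
  rw [pow_succ]
  exact sm_mul (pow_mem h.1 m) h

variable [Algebra ℂ K] [Algebra ℂ L]

theorem sm_pi {P : Pl K L} {y : K} (h : Sm (cmp P V) y) : Sm V (P.π y) :=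
  ⟨h.1.2, fun u => h.2 (M3Z.un_cmp.2 ⟨M3Z.un_of_pi h.1.1 u.1, u⟩)⟩

/-- A valuation ring that contains the constants, as an algebra. -/
def va (V : ValuationSubring L) (h : ∀ c : ℂ, algebraMap ℂ L c ∈ V) : Subalgebra ℂ L where
  carrier := V
  mul_mem' := mul_mem
  add_mem' := add_mem
  algebraMap_mem' := h

end Val

variable {f : Po 3} {M : Mod 3}

/-- The value of a bivector on the coordinates of a divisor. -/
theorem lam_chart (h : M.OK f) (hB : Bas1 M) {a : M.ι} {o : M.J} {l : Fin 3}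
    (hl : M.S.lab a o = some l) : ∃ u ∈ M.S.A a, ∀ γ : Fin 3 → KK 3,
      Lam (M3.co 3).D γ (M.S.z a (l.succAbove 0)) (M.S.z a (l.succAbove 1)) =
        u * pr (M3.co 3) γ (M.S.dv a l) * M.mon a (-(M.kk + M.e o)) := by
  obtain ⟨U, -, u1, u0, u2⟩ := cht_jac h a
  refine ⟨(-1) ^ (l + 1 : ℕ) * U⁻¹, mul_mem (pow_mem (neg_mem (one_mem _)) _) u1, fun γ => ?_⟩
  have e1 : ∀ i, lfr (cht h a) (ls M a) i = M.S.dv a i := fun i => by
    rw [Sys.dv, un_eq]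
    rfl
  have e2 := Lam_lfr (cht h a) (ls M a)
    (fun i => pr (M3.co 3) γ (lfr (cht h a) (ls M a) i) / J3 (M3.co 3) (lfr (cht h a) (ls M a))) l
  rw [Lam_frame _ _ (lfr_ne _ _ _), div_eq_iff (mul_ne_zero (un_ne _ _ _) (un_ne _ _ _)),
    lfr_J3, u2, ← cht_mon h, e1] at e2
  have e3 : (cht h a).mon (fun i => if i ∈ ls M a then 1 else 0) =
      ∏ i, if i ∈ ls M a then (cht h a).z i else 1 :=
    Finset.prod_congr rfl fun i _ => by split_ifs with hi <;> simp [hi]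
  have e4 : M.mon a (M.e o) = (cht h a).z l := by
    have := hB.mon_e a o 1
    rw [one_smul, zpow_one] at this
    exact this.trans (M.S.η_some a o l hl)
  rw [e3, Fin.prod_univ_succAbove _ l, Fin.prod_univ_two, if_pos (mem_ls.2 ⟨o, hl⟩)] at e2
  refine e2.trans ?_
  rw [hB.mon_neg, hB.mon_add, e4]
  have n1 := un_ne (cht h a) (ls M a) (l.succAbove 0)
  have n2 := un_ne (cht h a) (ls M a) (l.succAbove 1)
  have n3 := (cht h a).ne l
  have n4 : M.mon a M.kk ≠ 0 := Units.ne_zero _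
  generalize (if l.succAbove 0 ∈ ls M a then (cht h a).z (l.succAbove 0) else 1) = y1 at n1 ⊢
  generalize (if l.succAbove 1 ∈ ls M a then (cht h a).z (l.succAbove 1) else 1) = y2 at n2 ⊢
  field_simp

theorem A_le {U : Cov M} {la : ℚ} (hU : U.OK la) {W : Vl 3} (hW : Ov W) {r : U.κ}
    (hr : M.Gen W U.w (U.ρ r)) (hc : ∀ c : ℂ, algebraMap ℂ _ c ∈ W) : U.A r ≤ va W hc := by
  obtain ⟨h1, h2⟩ := (hU.ac.gen r W hW).1 hr
  exact M3L.aw_le (fun g hg => h1 g hg) h2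

end RLat

open RLat in
theorem rowLat : OfLat := by
  intro hK hN f la b β Q M U D L _ _ S o H hS V r r' γ t hW hr hr' hγ ht hP
  have hB : Bas1 M := (H.E.bas 3 f M H.ok).toBas1
  have hle : cmp S.P V ≤ (M.v o).O := hS.po ▸ M3Z.cmp_le S.P V
  obtain ⟨hin, -⟩ := (H.cov.ac.gen r _ hW).1 hr
  have hc : ∀ c : ℂ, algebraMap ℂ _ c ∈ cmp S.P V := fun c => hin _ ((M.S.A _).algebraMap_mem c)
  obtain ⟨hio, -, ⟨l, hl⟩, -⟩ := hB.in_v _ _ o hin (hB.thru_le _ o hW hle)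
  have hF : ∀ g ∈ M.S.A (U.bb r), g ∈ S.P.o.F 0 := fun g hg => (hin g hg).1
  obtain ⟨n, x, u, hn, hx, u1, -, -, hb, e1⟩ := hN f la b β Q M U D L S o H hS (U.bb r) l
    (l.succAbove 0) (l.succAbove 1) (hS.po ▸ hio) hl (l.succAbove_ne 0).symm
    (l.succAbove_ne 1).symm (fun e => by simpa using Fin.succAbove_right_injective e)
  have hsm := (((hK f la b β Q M U D L S o H hS).2.1 V hW).2.1 hP) _ hin
  obtain ⟨u', u2, e2⟩ := lam_chart H.ok hB hl
  have e3 := ht _ (hF _ (M.S.z_mem _ (l.succAbove 0))) _ (hF _ (M.S.z_mem _ (l.succAbove 1)))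
  obtain ⟨G, hG⟩ : ∃ G, G = pr (M3.co 3) γ (M.S.dv (U.bb r) l) * M.mon (U.bb r) (-U.c0) :=
    ⟨_, rfl⟩
  have hGW : G ∈ cmp S.P V :=
    hG ▸ sup_le (A_le H.cov hW hr hc) (A_le H.cov hW hr' hc) (hγ l)
  obtain ⟨y, hy⟩ : ∃ y, y = U.c0 - (M.kk + M.e o) := ⟨_, rfl⟩
  have e4 : Lam (M3.co 3).D γ (M.S.z (U.bb r) (l.succAbove 0)) (M.S.z (U.bb r) (l.succAbove 1)) =
      u' * G * M.mon (U.bb r) y := by
    rw [e2, hG, mul_assoc u' (_ * _), mul_assoc _ (M.mon _ _), ← hB.mon_add, hy, mul_assoc]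
    congr 3
    abel
  have hc0 : U.c0 = M.up U.P := H.cov.cl
  have m0 : ∀ c : M.J → ℤ, c o = 0 → M.mon (U.bb r) c ∈ S.P.o.F 0 := fun c e =>
    hS.po ▸ Or.inr (by rw [hB.v_mon _ _ _ hio, e])
  have y0 : y o = 0 := by
    have : ((M.k o : ℚ) + 1) = ((M.k o + 1 : ℤ) : ℚ) := by push_cast; rfl
    simp only [hy, hc0, Pi.sub_apply, Pi.add_apply, Mod.up, hS.top.2, Mod.kk, Mod.e,
      Pi.single_eq_same, this, Int.ceil_intCast, sub_self]
  have hxj : ∀ j, (x j : ℚ) = n * S.q * ((M.kk + M.e o) j - la * M.aa j) := fun j => by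
    simpa [Mod.q] using congrFun hx j
  have x0 : x o = 0 := by
    have h1 := hxj o
    have h2 := hS.top.1
    simp only [Mod.ex, Pi.add_apply, Mod.kk, Mod.e, Mod.aa, Pi.single_eq_same] at h1 h2
    push_cast at h1
    rw [h2, mul_zero] at h1
    exact_mod_cast h1
  have hcj : ∀ j, (U.c j : ℚ) = U.m * (U.P j - la * M.aa j) := fun j => by
    simpa [Mod.q] using congrFun H.cov.c j
  obtain ⟨z, hz⟩ : ∃ z, z = U.m • ((n * S.q) • y + x) - (n * S.q) • U.c := ⟨_, rfl⟩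
  have z0 : 0 ≤ z := fun j => by
    have h1 : U.P j ≤ (U.c0 j : ℚ) := by
      rw [hc0]
      exact Int.le_ceil _
    have h2 : (z j : ℚ) = U.m * (n * S.q) * (U.c0 j - U.P j) := by
      have h4 : z j = U.m * ((n * S.q : ℕ) * (U.c0 j - (M.kk + M.e o) j) + x j) -
          (n * S.q : ℕ) * U.c j := by
        simp [hz, hy, mul_add]
      rw [h4]
      push_cast
      rw [hxj, hcj]
      ring
    have h3 : (0 : ℚ) ≤ z j := by
      rw [h2]
      exact mul_nonneg (by positivity) (sub_nonneg.2 h1)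
    exact_mod_cast h3
  have g1 : u' * G * M.mon (U.bb r) y ∈ S.P.o.F 0 :=
    F_mul0 (F_mul0 (hF _ u2) hGW.1) (m0 _ y0)
  have g2 : u * M.mon (U.bb r) x ∈ S.P.o.F 0 := F_mul0 (hF _ u1) (m0 _ x0)
  have g3 : (u' * G * M.mon (U.bb r) y) ^ (n * S.q) ∈ S.P.o.F 0 := pow_mem (S := S.P.o.O) g1 _
  have e5 : (S.qd D).Φ t ^ n =
      S.P.π ((u' * G * M.mon (U.bb r) y) ^ (n * S.q) * (u * M.mon (U.bb r) x)) := by
    rw [S.P.mul _ g3 _ g2, M3Z.pi_pow g1, ← e4, ← e3, ← e1]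
    change (t ^ S.q * S.ψ) ^ n = _
    rw [mul_comm n, pow_mul, ← mul_pow, mul_pow t, mul_assoc,
      mul_div_cancel₀ _ (pow_ne_zero _ hb)]
  have e6 : ((u' * G * M.mon (U.bb r) y) ^ (n * S.q) * (u * M.mon (U.bb r) x)) ^ U.m =
      (((u' * G) ^ (n * S.q) * u) ^ U.m * M.mon (U.bb r) z) * M.mon (U.bb r) U.c ^ (n * S.q) := by
    rw [mul_assoc _ (M.mon _ z), ← hB.mon_nsmul, ← hB.mon_add, hz, sub_add_cancel, hB.mon_nsmul,
      hB.mon_add, hB.mon_nsmul]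
    ring
  refine sm_root hn (sm_root H.cov.m0 ?_)
  rw [e5, ← M3Z.pi_pow (F_mul0 g3 g2), e6]
  refine sm_pi (sm_mul ?_ (sm_pow (Nat.mul_pos hn hS.q0) hsm))
  exact mul_mem (pow_mem (mul_mem (pow_mem (mul_mem (hin _ u2) hGW) _) (hin _ u1)) _)
    (hin _ (hB.mon_mem _ _ z0))

end

end Pool.Agent.MP_ee8c61_ag.N3.Q3IZ
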