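import Pool.Agent.MP_ee8c61_ag.R3IZ.TDefs
import Pool.Agent.MP_ee8c61_ag.M3F.LF

/-!
The twist of the volume form on a divisor in the coordinates of a chart.
-/

namespace Pool.Agent.MP_ee8c61_ag.N3.Q3IZ

open Pool.Agent.MP_ee8c61_ag.M3 Pool.Agent.MP_ee8c61_ag.Q3IZ

set_option linter.unusedSectionVars false

variable [Base]

open H59 hiding pd
open M3 M3E M3RESID M3F
open M3J (ex br)

noncomputable section

namespace RNf

variable {L : Type} [Field L] [Algebra ℂ L]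

theorem const (C : Co L 2)
    (hf : FiniteDimensional (IntermediateField.adjoin ℂ (Set.range C.z)) L) {g : L}
    (h : ∀ X : VF L, X g = 0) : ∃ c : ℂ, g = algebraMap ℂ L c := by
  by_contra hn
  obtain ⟨X, hX⟩ := exists_der C hf (tr_of_nc fun c e => hn ⟨c, e⟩)
  exact hX (h X)

theorem br_swap (C : Co L 2) (g h : L) : br C g h = -br C h g := by
  simp only [br]
  ring

theorem fin3 : ∀ l0 l1 l2 : Fin 3, l0 ≠ l1 → l0 ≠ l2 → l1 ≠ l2 →
    (l1 = l0.succAbove 0 ∧ l2 = l0.succAbove 1) ∨ (l1 = l0.succAbove 1 ∧ l2 = l0.succAbove 0) := by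
  decide

/-- Two descriptions of the same volume form differ by a constant. -/
theorem cmp_tw (C C' : Co L 2)
    (hf : FiniteDimensional (IntermediateField.adjoin ℂ (Set.range C.z)) L) {q : ℕ} (hq : 0 < q)
    {ψ B J F : L} (hψ : ψ ≠ 0) (hJ : J ≠ 0) (hF : F ≠ 0) (la : ℚ)
    (hB : B = br C (C'.z 0) (C'.z 1) ∨ B = -br C (C'.z 0) (C'.z 1))
    (h : ∀ Y, ((C'.dv.tw J 1).tw F (-(la : ℂ))).δ Y = C.dv.δ Y + Y ψ / (q * ψ)) :
    B ≠ 0 ∧ ∃ c : ℂ, c ≠ 0 ∧ (ψ / B ^ q) ^ la.den =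
      algebraMap ℂ L c * (J ^ ((la.den : ℤ) * q) * F ^ (-(la.num * q))) := by
  have : CharZero L := charZero_of_injective_algebraMap (algebraMap ℂ L).injective
  have b0 := M3J.br_ne C C'
  have j0 := C.jac_ne C'
  have e1 : br C (C'.z 0) (C'.z 1) * C.jac C' = 1 := by
    rw [jac_br, ← M3J.br_chain, M3J.br_self]
  have B0 : B ≠ 0 := by
    rcases hB with e | e <;> rw [e]
    exacts [b0, neg_ne_zero.2 b0]
  have dB : ∀ Y : VF L, Y B / B = -(Y (C.jac C') / C.jac C') := fun Y => by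
    have e2 := dlog_mul Y b0 j0
    rw [e1, Derivation.map_one_eq_zero, zero_div] at e2
    rcases hB with e | e <;> rw [e]
    · linear_combination -e2
    · rw [map_neg, neg_div_neg_eq]
      linear_combination -e2
  have q1 := zpow_ne_zero ((la.den : ℤ) * q) hJ
  have q2 := zpow_ne_zero (-(la.num * q)) hF
  have q3 := mul_ne_zero q1 q2
  have q4 := zpow_ne_zero (-(q : ℤ)) B0
  have q5 := mul_ne_zero hψ q4
  have q6 := zpow_ne_zero (la.den : ℤ) q5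
  have e3 : (ψ / B ^ q) ^ la.den = (ψ * B ^ (-(q : ℤ))) ^ (la.den : ℤ) := by
    rw [zpow_natCast, zpow_neg, zpow_natCast, div_eq_mul_inv]
  have q7 := zpow_ne_zero (-1 : ℤ) q3
  obtain ⟨c, hc⟩ := const C hf (g := (ψ * B ^ (-(q : ℤ))) ^ (la.den : ℤ) *
      (J ^ ((la.den : ℤ) * q) * F ^ (-(la.num * q))) ^ (-1 : ℤ)) fun Y => by
    refine (div_eq_zero_iff.1 ?_).resolve_right (mul_ne_zero q6 q7)
    have e4 := h Y
    rw [C.dv_jac C'] at e4
    simp only [Dv.tw_δ, map_neg, map_one, map_ratCast] at e4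
    rw [dlog_mul Y q6 q7, dlog_zpow Y q5, dlog_zpow Y q3, dlog_mul Y hψ q4, dlog_mul Y q1 q2,
      dlog_zpow Y B0, dlog_zpow Y hJ, dlog_zpow Y hF, dB]
    have d0 : (la.den : L) ≠ 0 := Nat.cast_ne_zero.2 la.den_nz
    have d1 : (q : L) ≠ 0 := Nat.cast_ne_zero.2 hq.ne'
    have e5 : (la.num : L) = la * la.den := by
      rw [Rat.cast_def, div_mul_cancel₀ _ d0]
    have e6 : Y ψ / ψ = q * (Y ψ / (q * ψ)) := by field_simp
    push_cast
    rw [e5, e6]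
    linear_combination (-(la.den : L) * q) * e4
  refine ⟨B0, c, ?_, ?_⟩
  · rintro rfl
    exact mul_ne_zero q6 q7 (hc.trans (map_zero _))
  · rw [e3, ← hc, zpow_neg_one, inv_mul_cancel_right₀ q3]

theorem un_zpow {A : Subalgebra ℂ L} {u : L} (h1 : u ∈ A) (h2 : u⁻¹ ∈ A) (m : ℤ) : u ^ m ∈ A := by
  obtain ⟨r, rfl | rfl⟩ := Int.eq_nat_or_neg m
  · rw [zpow_natCast]
    exact pow_mem h1 r
  · rw [zpow_neg, zpow_natCast, ← inv_pow]
    exact pow_mem h2 r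

theorem mon_zsmul {M : N3.Mod 3} (b : M.ι) (r : ℤ) (c : M.J → ℤ) :
    M.mon b (r • c) = M.mon b c ^ r := by
  simp only [Mod.mon_eq, ← Finset.prod_zpow, ← zpow_mul, Pi.smul_apply, smul_eq_mul, mul_comm r]

end RNf

open RNf in
theorem rowNf : TNf := by
  intro f la b β Q M U D L _ _ S o H hS a l0 l1 l2 ha hl n1 n2 n3
  have h := H.ok
  have hB := (H.E.bas 3 f M h).toBas1
  have hP := hS.po
  have ha' : M.In a (M.v o).O := hP ▸ ha
  have hj := (hB.in_v a _ o ha' ((hB.thru_v o o).2 rfl)).2.1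
  obtain ⟨C', hC⟩ := exists_rch h hl hj hP
  have hd := cht_dat h hl hj
  rw [← hP] at hd
  obtain ⟨Uf, f1, f2, f3, ef⟩ := cht_f h a
  obtain ⟨Uj, j1, j2, j3, ej⟩ := cht_jac h a
  rw [← cht_mon h] at ef ej
  have hz : (cht h a).z l0 = M.η a o := (M.S.η_some a o l0 hl).symm
  have z0 := (cht h a).ne l0
  have vu : ∀ {u}, u ∈ M.S.A a → u⁻¹ ∈ M.S.A a → u ≠ 0 → S.P.o.v u = 0 := fun h1 h2 h3 => by
    have h4 := (hd.le _ h1).resolve_left h3
    have h5 := (hd.le _ h2).resolve_left (inv_ne_zero h3)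
    rw [DV.inv] at h5
    omega
  have vm : ∀ c, S.P.o.v (M.mon a c) = c o := fun c => by rw [hP, hB.v_mon a o c ha']
  obtain ⟨J, eJ⟩ : ∃ J, J = Uj * M.mon a (M.kk - (M.k o : ℤ) • M.e o) := ⟨_, rfl⟩
  obtain ⟨F, eF⟩ : ∃ F, F = Uf * M.mon a (M.aa - (M.a o : ℤ) • M.e o) := ⟨_, rfl⟩
  have J0 : J ≠ 0 := eJ ▸ mul_ne_zero j3 (M.mon_ne _ _)
  have F0 : F ≠ 0 := eF ▸ mul_ne_zero f3 (M.mon_ne _ _)
  have vJ : S.P.o.v J = 0 := by
    rw [eJ, DV.mul _ _ _ j3 (M.mon_ne _ _), vu j1 j2 j3, vm]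
    simp [Mod.kk, Mod.e_apply]
  have vF : S.P.o.v F = 0 := by
    rw [eF, DV.mul _ _ _ f3 (M.mon_ne _ _), vu f1 f2 f3, vm]
    simp [Mod.aa, Mod.e_apply]
  have eJ' : (co 3).jac (cht h a) = J * (cht h a).z l0 ^ (M.k o : ℤ) := by
    rw [ej, eJ, hz, ← hB.mon_e, mul_assoc, ← hB.mon_add, sub_add_cancel]
  have eF' : ip 3 f = F * (cht h a).z l0 ^ (M.a o : ℤ) := by
    rw [ef, eF, hz, ← hB.mon_e, mul_assoc, ← hB.mon_add, sub_add_cancel]
  have E1 := hd.adp.exp_dv.tw z0 (-1)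
  have R := ((hC.dv hd.adp).tw E1.reg J0 vJ 1).tw (E1.tw J0 1).reg F0 vF (-(la : ℂ))
  have h0 : la * M.a o = M.k o + 1 := (sub_eq_zero.1 hS.top.1).symm
  have e0 : algebraMap ℂ (KK 3) la * (M.a o : KK 3) = M.k o + 1 := by
    have : (la : ℂ) * M.a o = M.k o + 1 := by exact_mod_cast h0
    simpa using congrArg (algebraMap ℂ (KK 3)) this
  have e1 : dvf f la = (((cht h a).dv.tw ((cht h a).z l0) (-1)).tw J 1).tw F (-(la : ℂ)) :=
    Dv.ext' fun v => by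
      rw [dvf, Co.dv_jac _ (cht h a)]
      simp only [Dv.tw_δ]
      rw [eJ', eF', dlog_mul v J0 (zpow_ne_zero _ z0), dlog_mul v F0 (zpow_ne_zero _ z0),
        dlog_zpow v z0, dlog_zpow v z0]
      simp only [map_neg, map_one, Int.cast_natCast]
      linear_combination (-(v ((cht h a).z l0) / (cht h a).z l0)) * e0
  rw [← e1] at R
  have e2 := R.uniq hS.rd (hC.lift hd.adp)
  obtain ⟨B0, c, c0, e3⟩ := cmp_tw S.C C' hS.fin hS.q0 hS.ψ0 (Pl.π_ne J0 vJ) (Pl.π_ne F0 vF) la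
    (B := br S.C (S.P.π (M.S.z a l1)) (S.P.π (M.S.z a l2))) (by
      rw [hC 0, hC 1]
      rcases fin3 l0 l1 l2 n1 n2 n3 with ⟨rfl, rfl⟩ | ⟨rfl, rfl⟩
      · exact Or.inl rfl
      · exact Or.inr (br_swap _ _ _)) (by rw [e2]; exact hS.rat)
  have h1 : la.num * M.a o = la.den * (M.k o + 1) := by
    have d0 : (la.den : ℚ) ≠ 0 := Nat.cast_ne_zero.2 la.den_nz
    have := congrArg (fun t => (la.den : ℚ) * t) h0
    simp only [← mul_assoc, Rat.den_mul_eq_num] at this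
    exact_mod_cast this
  have c1 : algebraMap ℂ (KK 3) c ≠ 0 := by simpa using c0
  refine ⟨la.den, ((la.den : ℤ) * S.q) • (M.kk - (M.k o : ℤ) • M.e o) +
    (-(la.num * S.q)) • (M.aa - (M.a o : ℤ) • M.e o),
    algebraMap ℂ _ c * (Uj ^ ((la.den : ℤ) * S.q) * Uf ^ (-(la.num * S.q))), la.pos, ?_,
    mul_mem (Subalgebra.algebraMap_mem _ c) (mul_mem (un_zpow j1 j2 _) (un_zpow f1 f2 _)), ?_,
    mul_ne_zero c1 (mul_ne_zero (zpow_ne_zero _ j3) (zpow_ne_zero _ f3)), B0, ?_⟩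
  · funext j
    have h2 : (la.num : ℚ) * M.a o = la.den * (M.k o + 1) := by exact_mod_cast h1
    have h3 : (la.num : ℚ) = la * la.den := (Rat.mul_den_eq_num la).symm
    simp only [Mod.q_apply, Pi.add_apply, Pi.sub_apply, Pi.smul_apply, smul_eq_mul, nsmul_eq_mul]
    push_cast
    linear_combination (S.q * (M.e o j : ℚ)) * h2 - (S.q * (M.aa j : ℚ)) * h3
  · rw [mul_inv, mul_inv, ← map_inv₀, ← zpow_neg, ← zpow_neg]
    exact mul_mem (Subalgebra.algebraMap_mem _ _) (mul_mem (un_zpow j1 j2 _) (un_zpow f1 f2 _))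
  · have v1 : S.P.o.v (J ^ ((la.den : ℤ) * S.q)) = 0 := by rw [M3J.v_zpow _ J0, vJ, mul_zero]
    have v2 : S.P.o.v (F ^ (-(la.num * S.q))) = 0 := by rw [M3J.v_zpow _ F0, vF, mul_zero]
    rw [e3, ← Pl.π_zpow J0 vJ, ← Pl.π_zpow F0 vF, ← S.P.mul _ (Or.inr v1.ge) _ (Or.inr v2.ge),
      ← S.P.π_cst, ← S.P.mul _ (cst_F _ _) _ (F_mul0 (Or.inr v1.ge) (Or.inr v2.ge)), hB.mon_add,
      mon_zsmul, mon_zsmul, eJ, eF, mul_zpow, mul_zpow]
    congr 1
    ring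

end

end Pool.Agent.MP_ee8c61_ag.N3.Q3IZ
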