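import Pool.Agent.MP_ee8c61_ag.R3IZ.TDefs
import Pool.Agent.MP_ee8c61_ag.N3L.R1
import Pool.Agent.MP_ee8c61_ag.N3K.RKa

/-!
The model on which the mobile part of the log canonical divisor is semiample.
-/

namespace Pool.Agent.MP_ee8c61_ag.N3.Q3IZ

open Pool.Agent.MP_ee8c61_ag.M3 Pool.Agent.MP_ee8c61_ag.Q3IZ

set_option linter.unusedSectionVars false

variable [Base]

open H59 hiding pd
open M3 M3E Filter Topology

namespace RNice

variable {N : ℕ} {f : Po N} {M W : Mod N} {x A P P' : M.J → ℚ} {o : M.J}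

/-- A section generates along the divisor. -/
def Lv (M : Mod N) (o : M.J) (c : M.J → ℤ) : Prop := ∃ g ∈ M.H c, M.Gen (M.v o).O c g

/-- A section of a multiple generates along the divisor. -/
def Live (M : Mod N) (o : M.J) (x : M.J → ℚ) : Prop :=
  ∃ (m : ℕ) (c : M.J → ℤ), 0 < m ∧ M.q c = m • x ∧ Lv M o c

/-- The semiample divisor `P` has the sections of the log canonical divisor. -/
def Mob (M : Mod N) (P : M.J → ℚ) : Prop := ∃ (m : ℕ) (c : M.J → ℤ), 0 < m ∧ M.q c = m • P ∧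
  M.Free c ∧ ∀ n : ℕ, M.H (n • m • (M.kk + 1)) = M.H (n • c)

theorem q_nu (M : Mod N) (m : ℕ) : M.q (m • (M.kk + 1)) = m • M.nu :=
  funext fun j => by simp [Mod.kk, Mod.nu]

theorem H_mono (B : Bas f M) {c c' : M.J → ℤ} (h : c ≤ c') : M.H c ⊆ M.H c' :=
  fun _ hg V hV => B.oc_mono V _ _ _ (fun j _ => h j) (hg V hV)

theorem Lv.nsmul (B : Bas f M) {c : M.J → ℤ} (h : Lv M o c) (r : ℕ) : Lv M o (r • c) :=
  let ⟨g, h1, h2⟩ := h
  ⟨g ^ r, fun V hV => B.oc_pow V _ _ r (h1 V hV), B.gen_pow _ _ _ r h2⟩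

theorem Lv.add (B : Bas f M) {c c' : M.J → ℤ} (h : Lv M o c) (h' : Lv M o c') :
    Lv M o (c + c') :=
  let ⟨g, h1, h2⟩ := h
  let ⟨g', h3, h4⟩ := h'
  ⟨g * g', fun V hV => B.oc_mul V _ _ _ _ (h1 V hV) (h3 V hV), B.gen_mul _ _ _ _ _ h2 h4⟩

theorem Lv.le (B : Bas f M) {c c' : M.J → ℤ} (h : Lv M o c) (h' : M.H c ⊆ M.H c') :
    c o ≤ c' o := by
  obtain ⟨g, h1, h2⟩ := h
  have h3 := (B.gen_v _ _ _).1 h2
  have h4 := ((B.oc_v _ _ _).1 (h' h1 _ (B.ov_v o))).resolve_left h3.1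
  omega

theorem lv_free (B : Bas f M) {c : M.J → ℤ} (h : M.Free c) (o : M.J) : Lv M o c :=
  let ⟨_, h1, h2⟩ := h
  let ⟨g, h3, h4⟩ := h2 _ (B.ov_v o)
  ⟨g, h1 g h3, h4⟩

theorem live_semi (B : Bas f M) (h : M.SemiQ A) (o : M.J) : Live M o A :=
  let ⟨μ, w, h1, h2, h3⟩ := h
  ⟨μ, w, h1, h3, lv_free B h2 o⟩

theorem Live.add (B : Bas f M) (h : Live M o x) (h' : Live M o A) : Live M o (x + A) := by
  obtain ⟨m, c, h1, h2, h3⟩ := h
  obtain ⟨m', c', h4, h5, h6⟩ := h'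
  refine ⟨m * m', m' • c + m • c', Nat.mul_pos h1 h4, ?_, (h3.nsmul B m').add B (h6.nsmul B m)⟩
  rw [Mod.q_add, Mod.q_nsmul, Mod.q_nsmul, h2, h5, smul_add, mul_smul, mul_smul, smul_comm m' m]

theorem Live.push (E : EOut) (D : Dom W M) (hW : W.OK f) (hM : M.OK f) {y : W.J → ℚ}
    (h : Live W (D.e o) y) : Live M o (D.pf y) := by
  obtain ⟨m, c, h1, h2, g, h3, h4⟩ := h
  refine ⟨m, D.pf c, h1, funext fun j => congrFun h2 (D.e j), g,
    (E.dc N f W M D hW hM).push c h3, ((E.bas N f M hM).gen_v _ _ _).2 ?_⟩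
  have := ((E.bas N f W hW).gen_v _ _ _).1 h4
  rwa [D.v] at this

theorem pb_le (E : EOut) (D : Dom W M) (hW : W.OK f) (hM : M.OK f) : D.pb M.nu ≤ W.nu := by
  cases isEmpty_or_nonempty M.J with
  | inl _ =>
    intro i
    simp only [Dom.pb, Mod.nu, Finset.univ_eq_empty, Finset.sum_empty]
    positivity
  | inr h => exact M3L.pb_nu_le E D hW hM h.some

theorem pf_nu (E : EOut) (D : Dom W M) (hW : W.OK f) (hM : M.OK f) : D.pf W.nu = M.nu :=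
  funext fun j => by simp [Dom.pf, Mod.nu, (E.jd N f W M D hW hM).2]

theorem H_nu (E : EOut) (D : Dom W M) (hW : W.OK f) (hM : M.OK f) (m : ℕ) :
    W.H (m • (W.kk + 1)) = M.H (m • (M.kk + 1)) := by
  have DC := E.dc N f W M D hW hM
  refine Set.Subset.antisymm (fun g hg => ?_) ?_
  · have := DC.push _ hg
    rwa [show D.pf (m • (W.kk + 1)) = m • (M.kk + 1) from funext fun j => by
      simp [Dom.pf, Mod.kk, (E.jd N f W M D hW hM).2]] at this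
  · rw [← DC.H]
    refine H_mono (E.bas N f W hW) fun i => ?_
    have h1 := congrFun (D.q_pb (m • (M.kk + 1))) i
    have h2 := congrFun (q_nu W m) i
    rw [q_nu, D.pb_nsmul m M.nu] at h1
    have h3 := nsmul_le_nsmul_right (pb_le E D hW hM) m i
    rw [← h1, ← h2] at h3
    exact Int.cast_le.1 h3

theorem mob_ch (E : EOut) (hM : M.OK f) (C : Ch f M) (h : C.t = 0) : Mob C.W (C.P M.nu) := by
  have h0 := C.mem
  rw [h, zero_smul, add_zero] at h0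
  obtain ⟨m, c, c', h1, h2, h3, h4, h5⟩ := C.free _ h0
  refine ⟨m, c', h1, h3, h4, fun n => ?_⟩
  rw [← h5, M.q_inj (h2.trans (q_nu M m).symm), ← mul_smul, ← mul_smul, H_nu E C.D C.ok hM]

theorem Mob.pb (E : EOut) (D : Dom W M) (hW : W.OK f) (hM : M.OK f) (h : Mob M P) :
    Mob W (D.pb P) := by
  have DC := E.dc N f W M D hW hM
  obtain ⟨m, c, h1, h2, ⟨T, h3⟩, h4⟩ := h
  refine ⟨m, D.pb c, h1, by rw [D.q_pb, h2, D.pb_nsmul], ⟨T, DC.gens _ _ h3⟩, fun n => ?_⟩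
  rw [← D.pb_nsmul, DC.H, ← h4, ← mul_smul, ← mul_smul, H_nu E D hW hM]

theorem Mob.semi (h : Mob M P) : M.SemiQ P :=
  let ⟨m, c, h1, h2, h3, _⟩ := h
  ⟨m, c, h1, h3, h2⟩

theorem Mob.le (B : Bas f M) (h : Mob M P) : P ≤ M.nu := fun o => by
  obtain ⟨m, c, h1, h2, h3, h4⟩ := h
  have h5 := h4 1
  rw [one_smul, one_smul] at h5
  have h6 : M.q c o ≤ M.q (m • (M.kk + 1)) o := Int.cast_le.2 ((lv_free B h3 o).le B h5.ge)
  rw [h2, q_nu] at h6
  exact le_of_nsmul_le_nsmul_right h1.ne' h6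

theorem Mob.ge (B : Bas f M) (h : Mob M P) (hx : x ≤ M.nu) (hl : Live M o x) : x o ≤ P o := by
  obtain ⟨m, c, h1, h2, h3, h4⟩ := h
  obtain ⟨m', c', h5, h6, h7⟩ := hl
  have h8 : m • c' ≤ m' • m • (M.kk + 1) := fun j => by
    have : M.q (m • c') j ≤ M.q (m' • m • (M.kk + 1)) j := by
      rw [Mod.q_nsmul, Mod.q_nsmul, h6, q_nu, smul_comm m m']
      exact nsmul_le_nsmul_right (nsmul_le_nsmul_right hx m) m' j
    exact Int.cast_le.1 this
  have h9 : M.q (m • c') o ≤ M.q (m' • c) o :=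
    Int.cast_le.2 ((h7.nsmul B m).le B ((H_mono B h8).trans (h4 m').le))
  rw [Mod.q_nsmul, Mod.q_nsmul, h6, h2, smul_comm m m'] at h9
  exact le_of_nsmul_le_nsmul_right h1.ne' (le_of_nsmul_le_nsmul_right h5.ne' h9)

theorem Mob.uniq (B : Bas f M) (h : Mob M P) (h' : Mob M P') : P = P' :=
  le_antisymm (fun o => h'.ge B (h.le B) (live_semi B h.semi o))
    fun o => h.ge B (h'.le B) (live_semi B h'.semi o)

theorem live_of (B : Bas f M) {C : Ch f M} (ht : C.t = 0) (h : ¬C.Dead o) :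
    ∃ s : ℚ, s < 0 ∧ Live M o (M.nu + s • C.h) := by
  by_contra e
  refine h ⟨-1, by rw [ht]; norm_num, fun s _ hs m c hm hc g hg => by_contra fun e' => ?_⟩
  have h1 := not_or.1 e'
  have h2 := ((B.oc_v _ _ _).1 (hg _ (B.ov_v o))).resolve_left h1.1
  exact e ⟨s, ht ▸ hs, m, c, hm, hc, g, hg, (B.gen_v _ _ _).2 ⟨h1.1, by omega⟩⟩

theorem live_move (E : EOut) (hM : M.OK f) {s : ℚ} (hA : M.AmpQ A) (hs : s < 0)
    (h : Live M o (M.nu + s • A)) (u : M.J → ℚ) :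
    ∃ ε : ℚ, 0 < ε ∧ Live M o (M.nu + ε • u) := by
  have Q := E.aq N f M hM
  have B := E.bas N f M hM
  obtain ⟨ε, h1, h2⟩ := Q.opn _ u (Q.smul _ _ (neg_pos.2 hs) hA)
  refine ⟨ε, h1, ?_⟩
  have := h.add B (live_semi B (Q.semi _ (h2 ε h1.le le_rfl)) o)
  rwa [neg_smul, add_assoc, add_neg_cancel_left] at this

theorem not_exc (E : EOut) (D : Dom M W) (hM : M.OK f) (hW : W.OK f) {s : ℚ} (hA : M.AmpQ A)
    (hs : s < 0) (h : Live M o (M.nu + s • A)) : ∃ j, D.e j = o := by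
  by_contra e
  obtain ⟨ε, h1, m, c, h2, h3, h4⟩ := live_move E hM hA hs h (M.q (M.e o))
  have h5 : D.pf c = m • (W.kk + 1) := W.q_inj (funext fun j => by
    have a1 := congrFun h3 (D.e j)
    have a2 : D.e j ≠ o := fun e' => e ⟨j, e'⟩
    rw [q_nu, ← pf_nu E D hM hW]
    simpa [Dom.pf, Mod.e_apply, a2] using a1)
  have h6 := (E.dc N f M W D hM hW).push c
  rw [h5, ← H_nu E D hM hW] at h6
  have h7 : M.q c o ≤ M.q (m • (M.kk + 1)) o := Int.cast_le.2 (h4.le (E.bas N f M hM) h6)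
  rw [h3, q_nu] at h7
  have h8 := le_of_nsmul_le_nsmul_right h2.ne' h7
  simp [Mod.e_apply] at h8
  linarith

theorem live_down (E : EOut) (D : Dom M W) (hM : M.OK f) (hW : W.OK f) {s : ℚ} (hA : M.AmpQ A)
    (hs : s < 0) {j : W.J} (h : Live M (D.e j) (M.nu + s • A)) (u : W.J → ℚ) :
    ∃ s : ℚ, s < 0 ∧ Live W j (W.nu + s • u) := by
  obtain ⟨ε, h1, h2⟩ := live_move E hM hA hs h (-D.pb u)
  refine ⟨-ε, neg_neg_of_pos h1, ?_⟩
  have := h2.push E D hM hW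
  rwa [show D.pf (M.nu + ε • -D.pb u) = W.nu + -ε • u from funext fun i => by
    rw [← pf_nu E D hM hW]
    simp [Dom.pf, (E.dc N f M W D hM hW).pb_e]] at this

theorem common_m (B : Bas f M) (x : M.J → ℚ) (s : Finset M.J) : ∃ (m : ℕ) (c : M.J → ℤ),
    0 < m ∧ M.q c = m • x ∧ ∀ o ∈ s, Live M o x → Lv M o c := by
  induction s using Finset.induction_on with
  | empty =>
    obtain ⟨m, c, h1, h2⟩ := M3K.RKa.exists_int x
    exact ⟨m, c, h1, h2, by simp⟩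
  | insert j s _ ih =>
    obtain ⟨m, c, h1, h2, h3⟩ := ih
    by_cases hj : Live M j x
    · obtain ⟨m', c', h4, h5, h6⟩ := hj
      have e : m' • c = m • c' := M.q_inj (by
        rw [Mod.q_nsmul, Mod.q_nsmul, h2, h5, smul_comm])
      refine ⟨m' * m, m' • c, Nat.mul_pos h4 h1, by rw [Mod.q_nsmul, h2, mul_smul], fun o ho hl => ?_⟩
      rcases Finset.mem_insert.1 ho with rfl | ho
      · exact e ▸ h6.nsmul B m
      · exact (h3 o ho hl).nsmul B m'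
    · refine ⟨m, c, h1, h2, fun o ho hl => ?_⟩
      rcases Finset.mem_insert.1 ho with rfl | ho
      · exact absurd hl hj
      · exact h3 o ho hl

theorem common_s (E : EOut) (hM : M.OK f) (hA : M.AmpQ A) : ∃ s : ℚ, s < 0 ∧
    ∀ o, (∃ s : ℚ, s < 0 ∧ Live M o (M.nu + s • A)) → Live M o (M.nu + s • A) := by
  have Q := E.aq N f M hM
  have B := E.bas N f M hM
  have : ∀ o : Option M.J, ∃ s : ℚ, s < 0 ∧ ∀ j, o = some j →
      (∃ s : ℚ, s < 0 ∧ Live M j (M.nu + s • A)) → Live M j (M.nu + s • A) := fun o => by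
    by_cases h : ∃ j, o = some j ∧ ∃ s : ℚ, s < 0 ∧ Live M j (M.nu + s • A)
    · obtain ⟨j, rfl, s, h1, h2⟩ := h
      exact ⟨s, h1, fun j' e _ => Option.some_injective _ e ▸ h2⟩
    · exact ⟨-1, by norm_num, fun j e e' => absurd ⟨j, e, e'⟩ h⟩
  choose s h1 h2 using this
  obtain ⟨i, hi⟩ := Finite.exists_max s
  refine ⟨s i, h1 i, fun o ho => ?_⟩
  have := (h2 _ o rfl ho).add B
    (live_semi B (Q.smul' _ _ (sub_nonneg.2 (hi (some o))) (Q.semi _ hA)) o)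
  rwa [add_assoc, ← add_smul, add_sub_cancel] at this

/-- An ample divisor below the log canonical divisor that touches it wherever possible. -/
theorem exists_amp (E : EOut) (hW : W.OK f) : ∃ (M : Mod N) (_ : Dom M W) (A : M.J → ℚ),
    M.OK f ∧ M.AmpQ A ∧ A ≤ M.nu ∧ ∀ C : Ch f M, C.t = 0 → ∀ o, ¬C.Dead o → A o = M.nu o := by
  classical
  have B := E.bas N f W hW
  obtain ⟨w, hw⟩ := hW.amp
  have hh := (E.aq N f W hW).of_amp w hw
  obtain ⟨s, hs, h1⟩ := common_s E hW hh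
  obtain ⟨m, c, hm, hc, h2⟩ := common_m B (W.nu + s • W.q w) Finset.univ
  obtain ⟨r, hr⟩ := B.f_pow c
  have : ∀ o, ∃ g ∈ W.H c, Lv W o c → W.Gen (W.v o).O c g := fun o => by
    by_cases h : Lv W o c
    · exact h.imp fun g hg => ⟨hg.1, fun _ => hg.2⟩
    · exact ⟨_, (hr r le_rfl).1, fun e => absurd e h⟩
  choose g g1 g2 using this
  have hT : ∀ x ∈ insert (ip N f ^ r) (Finset.univ.image g), x ∈ W.H c := by
    simpa using ⟨(hr r le_rfl).1, g1⟩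
  obtain ⟨M, hM, ⟨D⟩, H⟩ := E.b1 N f W hW Unit (fun _ => insert (ip N f ^ r) (Finset.univ.image g))
    (fun _ => ⟨c, hT⟩) fun _ => ⟨r, by simp⟩
  obtain ⟨c', hc'⟩ := H ()
  have BM := E.bas N f M hM
  have DC := E.dc N f M W D hM hW
  have AM := E.aq N f M hM
  have k1 : ∀ i, c' i ≤ D.pb c i := fun i => by
    obtain ⟨x, hx, h2⟩ := hc'.2 _ (BM.ov_v i)
    have h3 := (BM.gen_v _ _ _).1 h2
    have h4 := ((BM.oc_v _ _ _).1 ((DC.H c).ge (hT x hx) _ (BM.ov_v i))).resolve_left h3.1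
    omega
  have k2 : ∀ o, Lv W o c → c' (D.e o) = c o := fun o ho => by
    have h3 := (BM.oc_v _ _ _).1 (hc'.1 (g o) (by simp) _ (BM.ov_v (D.e o)))
    have h4 := k1 (D.e o)
    rw [DC.pb_e] at h4
    rw [D.v] at h3
    have h5 := (B.gen_v _ _ _).1 (g2 o ho)
    have h6 := h3.resolve_left h5.1
    omega
  obtain ⟨Ξ, h3, h4, ε, h5, h6⟩ :=
    E.a4 N f M W D hM hW _ ((E.aq N f W hW).smul _ (-s) (neg_pos.2 hs) hh)
  have hm' : (0 : ℚ) < m := Nat.cast_pos.2 hm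
  have e2 : ∀ i, ((D.pb c i : ℤ) : ℚ) = m * (D.pb W.nu i + s * D.pb (W.q w) i) := fun i => by
    have := congrFun (D.q_pb c) i
    rw [hc, D.pb_nsmul, D.pb_add, D.pb_smul] at this
    simpa [mul_add] using this
  refine ⟨M, D, _, hM, AM.add _ _ (h6 ε h5 le_rfl)
    (AM.smul' _ (m : ℚ)⁻¹ (by positivity) (AM.of_free c' ⟨_, hc'⟩)), fun i => ?_,
    fun C ht o ho => ?_⟩
  · have a1 : (c' i : ℚ) ≤ m * (D.pb W.nu i + s * D.pb (W.q w) i) := e2 i ▸ Int.cast_le.2 (k1 i)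
    have a2 := pb_le E D hM hW i
    have a3 : 0 ≤ ε * Ξ i := mul_nonneg h5.le (Int.cast_nonneg (h3 i))
    rw [← inv_mul_le_iff₀ hm'] at a1
    simp only [D.pb_smul, Pi.add_apply, Pi.sub_apply, Pi.smul_apply, smul_eq_mul, Mod.q_apply]
    linarith
  · obtain ⟨s', a1, a2⟩ := live_of BM ht ho
    obtain ⟨j, rfl⟩ := not_exc E D hM hW C.amp a1 a2
    have a3 := k2 j (h2 j (Finset.mem_univ _) (h1 j (live_down E D hM hW C.amp a1 a2 _)))
    have a4 := e2 (D.e j)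
    have a5 : Ξ (D.e j) = 0 := congrFun h4 j
    have a6 : M.nu (D.e j) = W.nu j := congrFun (pf_nu E D hM hW) j
    rw [DC.pb_e, DC.pb_e, DC.pb_e] at a4
    simp only [D.pb_smul, Pi.add_apply, Pi.sub_apply, Pi.smul_apply, smul_eq_mul, Mod.q_apply,
      DC.pb_e, a3, a4, a5, a6, inv_mul_cancel_left₀ hm'.ne']
    simp

theorem dom_trans (E : EOut) {M' : Mod N} (D : Dom M W) (D' : Dom W M') (hM : M.OK f)
    (hM' : M'.OK f) : Nonempty (Dom M M') := by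
  refine E.mk2 N f M M' hM hM' fun b V hb => ?_
  obtain ⟨a, ha⟩ := D.loc b V hb
  obtain ⟨a', ha'⟩ := D'.loc a V fun g hg => (ha g hg).mem' hb
  refine ⟨a', fun g hg => ?_⟩
  obtain ⟨s, h1, h2, h3⟩ := ha' g hg
  have := ((ha s h1).inv h2).mul (ha _ h3)
  rwa [inv_mul_cancel_left₀ h2.1] at this

/-- An ample divisor close to `P`. -/
theorem near (E : EOut) (hM : M.OK f) (hP : M.SemiQ P) (hA : M.AmpQ A) (h : A ≤ P) :
    ∃ (w : M.J → ℤ) (μ : ℕ), 0 < μ ∧ M.Amp w ∧ Sys.cl w μ = M.up P ∧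
      ∀ o, A o = P o → (w o : ℚ) = μ * P o := by
  have Q := E.aq N f M hM
  have h3 : ∀ᶠ δ in 𝓝 (0 : ℚ), δ < 1 ∧ ∀ j, (⌈P j⌉ : ℚ) - 1 < δ * A j + (1 - δ) * P j :=
    (eventually_lt_nhds one_pos).and (eventually_all.2 fun j =>
      continuousAt_const.eventually_lt (by fun_prop) (by linarith [Int.ceil_lt_add_one (P j)]))
  obtain ⟨δ, h4, h5⟩ := ((h3.filter_mono nhdsWithin_le_nhds).and
    (self_mem_nhdsWithin (s := Set.Ioi 0))).exists
  obtain ⟨μ, w, h6, h7, h8⟩ := Q.add _ _ (Q.smul _ δ h5 hA)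
    (Q.smul' _ (1 - δ) (sub_nonneg.2 h4.1.le) hP)
  have e : ∀ j, (w j : ℚ) = μ * (δ * A j + (1 - δ) * P j) := fun j => by
    simpa [mul_add] using congrFun h8 j
  refine ⟨w, μ, h6, h7, funext fun j => Int.ceil_eq_iff.2 ?_, fun o ho => by rw [e, ho]; ring⟩
  rw [e, mul_div_cancel_left₀ _ (Nat.cast_ne_zero.2 h6.ne')]
  have h9 : 0 < δ := h5
  exact ⟨h4.2 j, le_trans (by nlinarith [h j]) (Int.le_ceil (P j))⟩

theorem semi_aa (B : Bas f M) (t : ℚ) : M.SemiQ (t • M.q M.aa) :=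
  ⟨t.den, t.num • M.aa, t.den_pos, B.free_aa _, by
    rw [Mod.q_zsmul, ← Nat.cast_smul_eq_nsmul ℚ, smul_smul, Rat.den_mul_eq_num]⟩

end RNice

open RNice in
theorem rowNice : OfNice := by
  intro E f la M' hM'
  by_cases h : ∀ C : Ch f M', C.t ≠ 0
  · obtain ⟨D⟩ := E.mk2 3 f M' M' hM' hM' fun b _ _ => ⟨b, fun _ => Lc.of_mem⟩
    exact ⟨M', D, hM', Or.inl h⟩
  obtain ⟨C', hC⟩ := not_forall.1 h
  obtain ⟨M, D, A, hM, hA, h1, h2⟩ := exists_amp E C'.ok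
  obtain ⟨D'⟩ := dom_trans E D C'.D hM hM'
  have B := E.bas 3 f M hM
  have hP := (mob_ch E hM' C' (not_not.1 hC)).pb E D hM C'.ok
  have h3 : A ≤ D.pb (C'.P M'.nu) := fun o =>
    hP.ge B h1 (live_semi B ((E.aq 3 f M hM).semi _ hA) o)
  obtain ⟨w, μ, h4, ⟨κ, fκ, bb, t, ρ, h5⟩, h6, h7⟩ := near E hM hP.semi hA h3
  obtain ⟨m, c, h8, ⟨T, h9⟩, h10⟩ := (E.aq 3 f M hM).add' _ _ hP.semi (semi_aa B (-la))
  refine ⟨M, D', hM, Or.inr ⟨⟨κ, fκ, bb, t, ρ, w, μ, D.pb (C'.P M'.nu), m, c, T⟩,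
    ⟨h5, h4, h6, hP.semi, hP.le B, h8, h10.trans (by rw [neg_smul, ← sub_eq_add_neg]), h9⟩,
    fun C ht => ⟨(mob_ch E hM C ht).uniq (E.bas 3 f _ C.ok) (hP.pb E C.D C.ok hM),
      fun o ho => ?_⟩⟩⟩
  have a1 := h2 C ht o ho
  have a2 := le_antisymm (h3 o) (a1 ▸ hP.le B o)
  have a3 := h7 o a2
  rw [← a2, a1] at a3
  have : (w o : ℚ) = μ * (M.k o + 1) := a3
  exact_mod_cast this

end Pool.Agent.MP_ee8c61_ag.N3.Q3IZ
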