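import Pool.Agent.MP_ee8c61_ag.R3IZ.TDefs

/-!
The potentials on a divisor.
-/

namespace Pool.Agent.MP_ee8c61_ag.N3.Q3IZ

open Pool.Agent.MP_ee8c61_ag.M3 Pool.Agent.MP_ee8c61_ag.Q3IZ

set_option linter.unusedSectionVars false

variable [Base]

open M3 M3E M3RESID

theorem rowSd : OfSd := by
  intro E f la β M U o X h hU ht hX
  obtain ⟨b0, hb0⟩ := h.ne o
  obtain ⟨i0, hi0⟩ := lab_of hb0
  obtain ⟨C', hC'⟩ := exists_rch (P := (M.v o).pl) h hi0 hb0 rfl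
  obtain ⟨p, p1, p2⟩ := Pl.cce hC' (cht_dat h hi0 hb0).adp (exp_v0 h ht.1) hX.rd (M3.co 3) X.Co
    hX.rv
  obtain ⟨r, hr⟩ := hU.ac.cov _ ((E.bas 3 f M h).toBas1.ov_v o)
  exact ⟨p, r, ht, rfl, hX.fin, hX.q0, hX.ψ0, hX.rat, hX.rd, hX.rv, p1, p2, hr⟩

end Pool.Agent.MP_ee8c61_ag.N3.Q3IZ
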