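import Pool.Agent.MP_ee8c61_ag.R3IZ.Core
import Pool.Agent.MP_ee8c61_ag.R3IZ.RA0
import Pool.Agent.MP_ee8c61_ag.R3IZ.RBig
import Pool.Agent.MP_ee8c61_ag.R3IZ.RCC
import Pool.Agent.MP_ee8c61_ag.R3IZ.RCuB
import Pool.Agent.MP_ee8c61_ag.R3IZ.RDat
import Pool.Agent.MP_ee8c61_ag.R3IZ.RE0
import Pool.Agent.MP_ee8c61_ag.R3IZ.RE1
import Pool.Agent.MP_ee8c61_ag.R3IZ.RE2
import Pool.Agent.MP_ee8c61_ag.R3IZ.RE3
import Pool.Agent.MP_ee8c61_ag.R3IZ.REdgeB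
import Pool.Agent.MP_ee8c61_ag.R3IZ.RFlag
import Pool.Agent.MP_ee8c61_ag.R3IZ.RKit
import Pool.Agent.MP_ee8c61_ag.R3IZ.RLat
import Pool.Agent.MP_ee8c61_ag.R3IZ.RLv
import Pool.Agent.MP_ee8c61_ag.R3IZ.RNf
import Pool.Agent.MP_ee8c61_ag.R3IZ.RNice
import Pool.Agent.MP_ee8c61_ag.R3IZ.RSd
import Pool.Agent.MP_ee8c61_ag.R3IZ.RSwap
import Pool.Agent.MP_ee8c61_ag.R3P.Rows
import Pool.Agent.MP_ee8c61_ag.N3.Fin1
import Pool.Agent.MP_ee8c61_ag.Q3IZ.Asm0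
import Pool.Agent.MP_ee8c61_ag.Q3IZ.RRul

/-! Simple roots over a base: the rows are put together. -/

namespace Pool.Agent.MP_ee8c61_ag.N3.Q3IZ

open Pool.Agent.MP_ee8c61_ag.Q3IZ (rowPV rowDict rowFF rowLd rowUni vx_of rowRul rowEndB)

variable [Base]

theorem pout : Q3.POut := Q3P.pout_of M3E.eout sch

theorem siz : Q3.SIZ :=
  have E := M3E.eout
  have lat := rowLat rowKit rowNf
  have cu := rowCuB rowKit rowNf (rowA0 rowKit)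
  siz_of ⟨E, pout, rowNice E, rowDat E, rowSd E, rowKit, rowCC rowKit lat, cu, rowBig rowKit lat,
    rowSwap E, rowEdgeB rowPV (rowDict rowFF) rowLd rowKit (rowLv rowKit) cu (rowE0 rowKit)
      (rowE1 rowKit) (rowE2 rowKit) (rowE3 rowKit), rowFlag E, rowUni rowFF, vx_of rowRul, rowEndB⟩

end Pool.Agent.MP_ee8c61_ag.N3.Q3IZ
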