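import Pool.Agent.MP_ee8c61_ag.R3.Defs
import Pool.Agent.MP_ee8c61_ag.Q3IZ.TDefs
import Pool.Agent.MP_ee8c61_ag.N3Z.Zero
import Pool.Agent.MP_ee8c61_ag.N3L.Loc
import Pool.Agent.MP_ee8c61_ag.N3RESID.RCC
import Pool.Agent.MP_ee8c61_ag.N3K.Spec

/-!
Simple roots: covers, local primitives and double curves on a model; the statements.
-/

namespace Pool.Agent.MP_ee8c61_ag.N3.Q3IZ

open Pool.Agent.MP_ee8c61_ag.M3 Pool.Agent.MP_ee8c61_ag.Q3IZ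

set_option linter.unusedSectionVars false

variable [Base]

open H59 hiding pd
open M3 M3E M3RESID M3F
open M3J (ex br)
open M3Z (cmp Fl)

noncomputable section

/-- An ample cover, a semiample divisor `P` with the same round-up, generators of a multiple of
`P - la a`. -/
structure Cov (M : Mod 3) where
  κ : Type
  fκ : Fintype κ
  bb : κ → M.ι
  t : κ → KK 3
  ρ : κ → KK 3
  w : M.J → ℤ
  μ : ℕ
  P : M.J → ℚ
  m : ℕ
  c : M.J → ℤ
  T : Finset (KK 3)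

attribute [instance] Cov.fκ

namespace Cov

variable {M : Mod 3} (U : Cov M)

structure OK (la : ℚ) : Prop where
  ac : M.AC U.w U.bb U.t U.ρ
  μ0 : 0 < U.μ
  cl : Sys.cl U.w U.μ = M.up U.P
  semi : M.SemiQ U.P
  le : U.P ≤ M.nu
  m0 : 0 < U.m
  c : M.q U.c = U.m • (U.P - la • M.q M.aa)
  gens : M.Gens U.c U.T

/-- The ring of an open set of the cover. -/
def A (i : U.κ) : Subalgebra ℂ (KK 3) := M3L.aw (M.S.A (U.bb i)) (U.t i)

/-- The lattice. -/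
def c0 : M.J → ℤ := Sys.cl U.w U.μ

/-- The component `l` of the field lies in the lattice `c`. -/
def L2 (c : M.J → ℤ) (i : U.κ) (X : VF (KK 3)) (l : Fin 3) : Prop :=
  X (M.S.z (U.bb i) l) / M.S.un (U.bb i) l * M.mon (U.bb i) (M.kk + 1 - c) ∈ U.A i

/-- The one-form lies in the lattice `c`. -/
def L1 (c : M.J → ℤ) (i j : U.κ) (γ : Fin 3 → KK 3) : Prop :=
  ∀ l, pr (M3.co 3) γ (M.S.dv (U.bb i) l) * M.mon (U.bb i) (-c) ∈ U.A i ⊔ U.A j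

/-- The ample divisor has the largest possible coefficient. -/
def Big (o : M.J) : Prop := U.w o = U.μ * (M.k o + 1)

/-- The exponent is zero and `P` has the largest possible coefficient. -/
def Top (la : ℚ) (o : M.J) : Prop := M.ex la o = 0 ∧ U.P o = M.k o + 1

end Cov

/-- The gradient. -/
def grd (f : Po 3) (la : ℚ) (τ : KK 3) : Fin 3 → KK 3 := fun l => Nb (dvf f la) (M3.co 3).D l τ

/-- The first two terms of the local primitives. -/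
structure DT (κ : Type) where
  g0 : κ → Fin 3 → KK 3
  X1 : κ → VF (KK 3)
  τ0 : κ → κ → KK 3
  γ1 : κ → κ → Fin 3 → KK 3

namespace DT

variable {M : Mod 3} {U : Cov M} (D : DT U.κ) (f : Po 3) (la : ℚ) (b : Polynomial ℂ)
  (β : Fin 3 → PX 3 (KK 3))

/-- The local primitive. -/
def X0 (i : U.κ) : VF (KK 3) := bf la β - crl (dvf f la) (M3.co 3).D (D.g0 i)

/-- The difference of the local potentials. -/
def γ0 (i j : U.κ) : Fin 3 → KK 3 := D.g0 i - D.g0 j - grd f la (D.τ0 i j)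

structure OK : Prop where
  x0 : ∀ i l, U.L2 U.c0 i (D.X0 f la β i) l
  x1 : ∀ i l, U.L2 U.c0 i (D.X1 i) l
  eq : ∀ i, ∃ p : Po 3, (dvf f la).δ (D.X1 i) + D.X0 f la β i (ip 3 f) / ip 3 f =
    algebraMap ℂ (KK 3) (b.derivative.eval (-(la : ℂ))) + ip 3 f * ip 3 p
  l0 : ∀ i j, U.L1 U.c0 i j (D.γ0 f la i j)
  l1 : ∀ i j, U.L1 U.c0 i j (D.γ1 i j)
  co : ∀ i j u, D.X1 i u - D.X1 j u = -(crl (dvf f la) (M3.co 3).D (D.γ1 i j) u +
    Lam (M3.co 3).D (D.γ0 f la i j) (ip 3 f) u / ip 3 f)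
  big : ∀ o, M.ex la o = 0 → U.Big o → ∃ (g : U.κ → Fin 3 → KK 3) (τ : U.κ → U.κ → KK 3),
    (∀ i, U.L1 U.c0 i i (D.g0 i - g i)) ∧
    (∀ i l, U.L2 U.c0 i (bf la β - crl (dvf f la) (M3.co 3).D (g i)) l ∧
      (M.S.lab (U.bb i) o ≠ some l →
        U.L2 (U.c0 + M.e o) i (bf la β - crl (dvf f la) (M3.co 3).D (g i)) l)) ∧
    ∀ i j, U.L1 (U.c0 + M.e o) i j (g i - g j - grd f la (τ i j))

end DT

/-- The standing hypotheses. -/
structure Hs (f : Po 3) (la : ℚ) (b : Polynomial ℂ) (β : Fin 3 → PX 3 (KK 3))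
    (Q : PX 3 (KK 3)) (M : Mod 3) (U : Cov M) (D : DT U.κ) : Prop where
  E : EOut
  hyp : Q3.Hyp0 f b β Q
  root : b.eval (-(la : ℂ)) = 0
  ok : M.OK f
  cov : U.OK la
  dt : D.OK f la b β

/-- The data on a divisor. -/
structure Sd (L : Type) [Field L] [Algebra ℂ L] (κ : Type) where
  P : Pl (KK 3) L
  C : Co L 2
  q : ℕ
  ψ : L
  d : Dv L
  v : VF L
  p : (Fin 3 → KK 3) → L
  i0 : κ

namespace Sd

variable {L k : Type} [Field L] [Algebra ℂ L] [Field k] [Algebra ℂ k] {M : Mod 3} {U : Cov M}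
  (S : Sd L U.κ)

structure OK (f : Po 3) (la : ℚ) (β : Fin 3 → PX 3 (KK 3)) (o : M.J) : Prop where
  top : U.Top la o
  po : S.P.o = M.v o
  fin : FiniteDimensional (IntermediateField.adjoin ℂ (Set.range S.C.z)) L
  q0 : 0 < S.q
  ψ0 : S.ψ ≠ 0
  rat : ∀ Y, S.d.δ Y = S.C.dv.δ Y + Y S.ψ / (S.q * S.ψ)
  rd : S.P.RsD (dvf f la) S.d
  rv : S.P.Res (dvf f la) (bf la β) S.v
  p1 : ∀ g, bf la β - crl (dvf f la) (M3.co 3).D g ∈ LV S.P.o 0 →
    S.P.Rs (bf la β - crl (dvf f la) (M3.co 3).D g) (S.v - ex S.d S.C (S.p g))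
  p2 : ∀ g g' τ, LgB (M3.co 3) S.P.o (g - g' - grd f la τ) → ∀ u ∈ S.P.o.F 0, ∀ u' ∈ S.P.o.F 0,
    (S.p g - S.p g') * br S.C (S.P.π u) (S.P.π u') =
      S.P.π (Lam (M3.co 3).D (g - g' - grd f la τ) u u')
  i0 : M.Gen S.P.o.O U.w (U.ρ S.i0)

open Classical in
/-- The surface with its potentials. -/
def qd (D : DT U.κ) : QD L U.κ where
  C := S.C
  q := S.q
  ψ := S.ψ
  d := S.d
  v := S.v
  ρ r := S.P.π (U.ρ r / U.ρ S.i0)
  θ r := S.p (D.g0 r)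
  S := U.T.image S.P.π
  m := U.m

end Sd

section Flag

variable {L L' k : Type} [Field L] [Algebra ℂ L] [Field L'] [Algebra ℂ L'] [Field k] [Algebra ℂ k]
  {M : Mod 3}

/-- A complete double curve of exponent zero on which the class is not trivial. -/
structure Fz (f : Po 3) (la : ℚ) (U : Cov M) (P : Pl (KK 3) L) (G : Pl L k) (o j : M.J) :
    Prop where
  fl : Fl f M P G o j
  t1 : U.Top la o
  t2 : U.Top la j
  cpl : ∀ l, ∃ c : ℂ, ¬Un (cmp P G.o.O) (xx 3 l - algebraMap ℂ _ c)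
  nt : ∃ s ∈ U.T, ∃ s' ∈ U.T, M.Gen (cmp P G.o.O) U.c s ∧ M3K.Tc (cmp P G.o.O) (s' / s)

/-- Two flags define the same curve. -/
structure Tw (M : Mod 3) (P : Pl (KK 3) L) (G : Pl L k) (P' : Pl (KK 3) L') (G' : Pl L' k) :
    Prop where
  inn : ∀ b, M.In b (cmp P G.o.O) ↔ M.In b (cmp P' G'.o.O)
  lc : ∀ b, M.In b (cmp P G.o.O) → ∀ g, Lc (M.S.A b) (cmp P G.o.O) g →
    Lc (M.S.A b) (cmp P' G'.o.O) g ∧ G'.π (P'.π g) = G.π (P.π g)
  lc' : ∀ b, M.In b (cmp P G.o.O) → ∀ g, Lc (M.S.A b) (cmp P' G'.o.O) g →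
    Lc (M.S.A b) (cmp P G.o.O) g

/-- The restriction of a field to the curve. -/
def RR (P : Pl (KK 3) L) (G : Pl L k) (X : VF (KK 3)) (u : VF k) : Prop :=
  ∃ X', P.Rs X X' ∧ G.Rs X' u

end Flag

/-- A statement about all divisors. -/
def AllD1 (p : ∀ {L : Type} [Field L] [Algebra ℂ L] (_ : Po 3) (_ : ℚ) {M : Mod 3} {U : Cov M}
    (_ : DT U.κ) (_ : Sd L U.κ) (_ : M.J), Prop) : Prop :=
  ∀ (f : Po 3) (la : ℚ) (b : Polynomial ℂ) (β : Fin 3 → PX 3 (KK 3)) (Q : PX 3 (KK 3))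
    (M : Mod 3) (U : Cov M) (D : DT U.κ) (L : Type) [Field L] [Algebra ℂ L] (S : Sd L U.κ)
    (o : M.J), Hs f la b β Q M U D → S.OK f la β o → p f la D S o

/-- A statement about all flags. -/
def AllF (p : ∀ {L k : Type} [Field L] [Algebra ℂ L] [Field k] [Algebra ℂ k] {M : Mod 3}
    {U : Cov M} (_ : DT U.κ) (_ : Sd L U.κ) (_ : Pl L k) (_ : M.J), Prop) : Prop :=
  AllD1 fun {L} _ _ f la {M U} D S o => ∀ (k : Type) [Field k] [Algebra ℂ k] (G : Pl L k)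
    (j : M.J), Fz f la U S.P G o j → p D S G o

/-- A statement about all pairs of twin flags; `c` is the derivative of `b` at the root. -/
def AllT (p : ∀ {L L' k : Type} [Field L] [Algebra ℂ L] [Field L'] [Algebra ℂ L'] [Field k]
    [Algebra ℂ k] {M : Mod 3} {U : Cov M} (_ : DT U.κ) (_ : Sd L U.κ) (_ : Pl L k)
    (_ : Sd L' U.κ) (_ : Pl L' k) (_ _ : M.J) (_ : ℂ), Prop) : Prop :=
  ∀ (f : Po 3) (la : ℚ) (b : Polynomial ℂ) (β : Fin 3 → PX 3 (KK 3)) (Q : PX 3 (KK 3))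
    (M : Mod 3) (U : Cov M) (D : DT U.κ) (L L' k : Type) [Field L] [Algebra ℂ L] [Field L']
    [Algebra ℂ L'] [Field k] [Algebra ℂ k] (S : Sd L U.κ) (G : Pl L k) (S' : Sd L' U.κ)
    (G' : Pl L' k) (o j : M.J), Hs f la b β Q M U D → S.OK f la β o → S'.OK f la β j →
    Fz f la U S.P G o j → Fz f la U S'.P G' j o → Tw M S.P G S'.P G' →
    p D S G S' G' o j (b.derivative.eval (-(la : ℂ)))

/-! ### The model and the data -/

/-- The model. -/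
def TNice : Prop := ∀ (f : Po 3) (la : ℚ) (M' : Mod 3), M'.OK f →
  ∃ (M : Mod 3) (_ : Dom M M'), M.OK f ∧ ((∀ C : Ch f M, C.t ≠ 0) ∨ ∃ U : Cov M, U.OK la ∧
    ∀ C : Ch f M, C.t = 0 → C.P M.nu = C.D.pb U.P ∧ ∀ o, ¬C.Dead o → U.Big o)

def OfNice : Prop := EOut → TNice

/-- The local primitives. -/
def TDat : Prop := ∀ (f : Po 3) (la : ℚ) (b : Polynomial ℂ) (β : Fin 3 → PX 3 (KK 3))
  (Q : PX 3 (KK 3)) (M : Mod 3) (U : Cov M), Q3.Hyp0 f b β Q → b.eval (-(la : ℂ)) = 0 →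
  M.OK f → U.OK la → ∃ D : DT U.κ, D.OK f la b β

def OfDat : Prop := EOut → TDat

/-- The potentials. -/
def TSd : Prop := ∀ (f : Po 3) (la : ℚ) (β : Fin 3 → PX 3 (KK 3)) (M : Mod 3) (U : Cov M)
  (o : M.J) (X : Ch.AV (M := M) o), M.OK f → U.OK la → U.Top la o → X.OK f la β →
  ∃ p i0, Sd.OK (U := U) ⟨(M.v o).pl, X.Co, X.q, X.ψ, X.d, X.v, p, i0⟩ f la β o

def OfSd : Prop := EOut → TSd

/-! ### One divisor -/

/-- Generators, positivity and logarithmic bivectors. -/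
def TKit : Prop := AllD1 fun {L} _ _ _ _ {M U} D S _ => (S.qd D).OK ∧
  (∀ V : ValuationSubring L, Ov (cmp S.P V) →
    (∀ r, Gi (S.qd D).ρ V r ↔ M.Gen (cmp S.P V) U.w (U.ρ r)) ∧
    ((S.qd D).Ps V ↔ ∀ a, M.In a (cmp S.P V) → Sm (cmp S.P V) (M.mon a U.c))) ∧
  (∀ r r' γ, M.Gen S.P.o.O U.w (U.ρ r) → M.Gen S.P.o.O U.w (U.ρ r') → U.L1 U.c0 r r' γ →
    LgB (M3.co 3) S.P.o γ) ∧
  ∀ r X, M.Gen S.P.o.O U.w (U.ρ r) → (∀ l, U.L2 U.c0 r X l) → X ∈ LV S.P.o 0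

/-- The twist in the coordinates of a chart. -/
def TNf : Prop := AllD1 fun {_} _ _ _ la {M _} _ S o => ∀ a (l0 l1 l2 : Fin 3), M.In a S.P.o.O →
  M.S.lab a o = some l0 → l0 ≠ l1 → l0 ≠ l2 → l1 ≠ l2 → ∃ (n : ℕ) (x : M.J → ℤ) (u : KK 3),
    0 < n ∧ M.q x = (n * S.q) • (M.q (M.kk + M.e o) - la • M.q M.aa) ∧ u ∈ M.S.A a ∧
    u⁻¹ ∈ M.S.A a ∧ u ≠ 0 ∧ br S.C (S.P.π (M.S.z a l1)) (S.P.π (M.S.z a l2)) ≠ 0 ∧
    (S.ψ / br S.C (S.P.π (M.S.z a l1)) (S.P.π (M.S.z a l2)) ^ S.q) ^ n = S.P.π (u * M.mon a x)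

/-- Residues of one-forms of the lattice vanish where the class is positive. -/
def TLat : Prop := AllD1 fun {L} _ _ _ _ {M U} D S _ => ∀ (V : ValuationSubring L) r r' γ t,
  Ov (cmp S.P V) → M.Gen (cmp S.P V) U.w (U.ρ r) → M.Gen (cmp S.P V) U.w (U.ρ r') →
  U.L1 U.c0 r r' γ → (∀ u ∈ S.P.o.F 0, ∀ u' ∈ S.P.o.F 0,
    t * br S.C (S.P.π u) (S.P.π u') = S.P.π (Lam (M3.co 3).D γ u u')) →
  (S.qd D).Ps V → Sm V ((S.qd D).Φ t)

def OfLat : Prop := TKit → TNf → TLat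

/-- The lattice conditions on a complete divisor. -/
def TCC : Prop := AllD1 fun {L} _ _ _ _ {_ _} D S _ =>
  (∀ l, S.P.π (xx 3 l) ∈ Set.range (algebraMap ℂ L)) → (S.qd D).CC

def OfCC : Prop := TKit → TLat → TCC

/-! ### One flag -/

def TLv : Prop := AllF fun D S G _ => ∀ r, Gi (S.qd D).ρ G.o.O r →
  (S.qd D).X ((S.qd D).θ r) ∈ LV G.o 0

def OfLv : Prop := TKit → TLv

def TA0 : Prop := AllF fun D S G _ =>
  ∃ Θ, (S.qd D).X Θ ∈ LV G.o 0 ∧ ∀ g ∈ G.o.F 0, (S.qd D).X Θ g ∈ G.o.F 1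

def OfA0 : Prop := TKit → TA0

def TCu : Prop := AllF fun D S G _ => (S.qd D).Cu G.o

def OfCu : Prop := TKit → TNf → TA0 → TCu

/-- The class vanishes on a divisor that is not contracted. -/
def TBig : Prop := AllF fun {_ _} _ _ _ _ {_ U} D S G o => U.Big o → (S.qd D).Cl G.o 0

def OfBig : Prop := TKit → TLat → TBig

/-- The twin flag. -/
def TSwap : Prop := ∀ (f : Po 3) (la : ℚ) (M : Mod 3) (U : Cov M) (L L' k : Type) [Field L]
  [Algebra ℂ L] [Field L'] [Algebra ℂ L'] [Field k] [Algebra ℂ k] (P : Pl (KK 3) L) (G : Pl L k)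
  (P' : Pl (KK 3) L') (o j : M.J), U.OK la → Fz f la U P G o j → P'.o = M.v j →
  ∃ G' : Pl L' k, Fz f la U P' G' j o ∧ Tw M P G P' G' ∧ Tw M P' G' P G

def OfSwap : Prop := EOut → TSwap

/-! ### Twin flags -/

/-- The volume form on the curve; generators and positivity do not depend on the side. -/
def TE0 : Prop := AllT fun {_ _ k} _ _ _ _ _ _ {_ _} D S G S' G' _ _ _ =>
  (∃ e : Dv k, G.RsD S.d e ∧ G'.RsD S'.d e) ∧
  ∀ W : ValuationSubring k, (∀ c : ℂ, algebraMap ℂ k c ∈ W) →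
    ((S'.qd D).Ps (cmp G' W) → (S.qd D).Ps (cmp G W)) ∧
    ∀ r, Gi (S'.qd D).ρ (cmp G' W) r → Gi (S.qd D).ρ (cmp G W) r

def OfE0 : Prop := TKit → TE0

/-- The restriction of the second term. -/
def TE1 : Prop := AllF fun {_ k} _ _ _ _ {_ _} D S G _ => ∀ r, Gi (S.qd D).ρ G.o.O r →
  ∃ u, RR S.P G (D.X1 r) u ∧ ∀ (e : Dv k) (W : ValuationSubring k), G.RsD S.d e →
    (∀ c : ℂ, algebraMap ℂ k c ∈ W) → (S.qd D).Ps (cmp G W) → Gi (S.qd D).ρ (cmp G W) r →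
    PosV e W u

def OfE1 : Prop := TKit → TE1

/-- The equation of order one on the curve. -/
def TE2 : Prop := AllT fun {_ _ k} _ _ _ _ _ _ {M _} D S G S' G' o j c => ∀ (e : Dv k) r u n n',
  G.RsD S.d e → Gi (S.qd D).ρ G.o.O r → RR S.P G (D.X1 r) u →
  Nor G ((S.qd D).X ((S.qd D).θ r)) n → Nor G' ((S'.qd D).X ((S'.qd D).θ r)) n' →
  algebraMap ℂ k c = e.δ u + M.a j * n + M.a o * n'

def OfE2 : Prop := TKit → TE2

/-- The differences of the restrictions. -/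
def TE3 : Prop := AllT fun {_ _ k} _ _ _ _ _ _ {M _} D S G S' G' o j _ => ∀ r r' u u' ω ω',
  Gi (S.qd D).ρ G.o.O r → Gi (S.qd D).ρ G.o.O r' → RR S.P G (D.X1 r) u → RR S.P G (D.X1 r') u' →
  Lead S.C G ((S.qd D).θ r - (S.qd D).θ r') ω →
  Lead S'.C G' ((S'.qd D).θ r - (S'.qd D).θ r') ω' →
  ∀ y : k, u y - u' y = -(M.a o * ω' y + M.a j * ω y)

def OfE3 : Prop := TKit → TE3

/-- The class passes to the twin flag. -/
def TEdge : Prop := AllT fun {_ _ _} _ _ _ _ _ _ {M _} D S G S' G' o j c => ∀ κ κ' : ℂ,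
  M.a j * κ + M.a o * κ' = c → (S.qd D).Cl G.o κ → (S'.qd D).Cl G'.o κ'

def OfEdge : Prop :=
  SPV → SDict → SLd → TKit → TLv → TCu → TE0 → TE1 → TE2 → TE3 → TEdge

/-! ### Flags and core curves -/

def TFlag : Prop := ∀ (f : Po 3) (la : ℚ) (b : Polynomial ℂ) (β : Fin 3 → PX 3 (KK 3))
  (Q : PX 3 (KK 3)) (M : Mod 3) (U : Cov M) (C : Ch f M), M.OK f → U.OK la → C.t = 0 →
  C.P M.nu = C.D.pb U.P → (∀ o, C.Alive o ↔ U.P o = M.k o + 1) ∧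
  ∀ (o : M.J) (X : Ch.AV (M := M) o) (Y : C.AS o), Q3.Sit0 f la b β Q M C o → X.OK f la β →
    Y.OK la → Q3.OK1 (C.sd la b o X Y) →
    (∀ s ∈ U.T, (M.v o).pl.π s ≠ 0 → ∀ Γ, M3.Cv (C.sd la b o X Y).x Γ →
      -(U.m * (C.sd la b o X Y).α Γ) ≤ Γ.v ((M.v o).pl.π s)) ∧
    (∀ Γ j, Cz (C.sd la b o X Y) Γ j → Fz f la U (M.v o).pl Γ.pl o j.1) ∧
    ∀ (Γ : DV (M.v o).kf) (j : C.Nb o), Fz f la U (M.v o).pl Γ.pl o j.1 →
      Cz (C.sd la b o X Y) Γ j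

def OfFlag : Prop := EOut → TFlag

end

end Pool.Agent.MP_ee8c61_ag.N3.Q3IZ
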